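import Pool.Agent.Helper60_Pack.C7

/-!
# PACK modules C1, C2, helper60
-/

namespace Pool.Agent.Helper60_Pack

open Pool.Agent.Helper2_Pack Complex

theorem norm_le_of_comp {w : ℂ} {R : ℝ} (hR : 0 ≤ R) (h1 : |w.re| ≤ R) (h2 : |w.im| ≤ R) :
    ‖w‖ ≤ 3 / 2 * R := by
  have h3 : ‖w‖ ^ 2 ≤ (3 / 2 * R) ^ 2 := by
    rw [Complex.sq_norm, Complex.normSq_apply]
    have a1 := abs_mul_abs_self w.re
    have a2 := abs_mul_abs_self w.im
    have b1 : |w.re| * |w.re| ≤ R * R := mul_self_le_mul_self (abs_nonneg _) h1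
    have b2 : |w.im| * |w.im| ≤ R * R := mul_self_le_mul_self (abs_nonneg _) h2
    linarith only [a1, a2, b1, b2, mul_nonneg hR hR]
  exact (pow_le_pow_iff_left₀ (norm_nonneg _) (by positivity) two_ne_zero).1 h3

/-- the first bound on the centre -/
theorem centre_bound {s : ℝ} {m u z : ℂ} {α β : ℝ} (hs : 0 < s) (hu : ‖u‖ = 1)
    (hz1 : |z.re| ≤ s) (hz2 : |z.im| ≤ s) (hz : z = m + u * (α + β * Complex.I))
    (hα : |α| ≤ 1 / 2 + s) (hβ : |β| ≤ 1 / 2 + s) :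
    m.re ^ 2 + m.im ^ 2 ≤ 1 / 2 + 4 * s + 8 * s ^ 2 ∧
      (z.re - m.re) ^ 2 + (z.im - m.im) ^ 2 = α ^ 2 + β ^ 2 := by
  have h1 : ‖z - m‖ ^ 2 = α ^ 2 + β ^ 2 := by
    have h2 : z - m = u * (α + β * Complex.I) := by rw [hz]; ring
    rw [h2, norm_mul, hu, one_mul, Complex.sq_norm, Complex.normSq_apply]
    simp
    ring
  have h2 : ‖z - m‖ ^ 2 = (z.re - m.re) ^ 2 + (z.im - m.im) ^ 2 := by
    rw [Complex.sq_norm, Complex.normSq_apply, Complex.sub_re, Complex.sub_im]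
    ring
  refine ⟨?_, by rw [← h2, h1]⟩
  have h3 : ‖m‖ ^ 2 = m.re ^ 2 + m.im ^ 2 := by
    rw [Complex.sq_norm, Complex.normSq_apply]
    ring
  rw [← h3]
  have h4 : ‖z‖ ^ 2 = z.re ^ 2 + z.im ^ 2 := by
    rw [Complex.sq_norm, Complex.normSq_apply]
    ring
  have a1 : z.re ^ 2 ≤ s ^ 2 := sq_le_sq' (abs_le.1 hz1).1 (abs_le.1 hz1).2
  have a2 : z.im ^ 2 ≤ s ^ 2 := sq_le_sq' (abs_le.1 hz2).1 (abs_le.1 hz2).2
  have a3 : α ^ 2 ≤ (1 / 2 + s) ^ 2 := sq_le_sq' (abs_le.1 hα).1 (abs_le.1 hα).2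
  have a4 : β ^ 2 ≤ (1 / 2 + s) ^ 2 := sq_le_sq' (abs_le.1 hβ).1 (abs_le.1 hβ).2
  have h5 : ‖z - m‖ * ‖z‖ ≤ 2 * (1 / 2 + s) * s := by
    have h6 : (‖z - m‖ * ‖z‖) ^ 2 ≤ (2 * (1 / 2 + s) * s) ^ 2 := by
      rw [mul_pow, h1, h4]
      have h7 : (α ^ 2 + β ^ 2) * (z.re ^ 2 + z.im ^ 2) ≤ (2 * (1 / 2 + s) ^ 2) * (2 * s ^ 2) :=
        mul_le_mul (by linarith only [a3, a4]) (by linarith only [a1, a2]) (by positivity) (by positivity)
      calc (α ^ 2 + β ^ 2) * (z.re ^ 2 + z.im ^ 2) ≤ (2 * (1 / 2 + s) ^ 2) * (2 * s ^ 2) := h7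
        _ = (2 * (1 / 2 + s) * s) ^ 2 := by ring
    exact (pow_le_pow_iff_left₀ (by positivity) (by positivity) two_ne_zero).1 h6
  have h6 : ‖m‖ ≤ ‖z - m‖ + ‖z‖ := by
    have : m = z - (z - m) := by ring
    calc ‖m‖ = ‖z - (z - m)‖ := by rw [← this]
      _ ≤ ‖z‖ + ‖z - m‖ := norm_sub_le _ _
      _ = ‖z - m‖ + ‖z‖ := add_comm _ _
  have h7 : ‖m‖ ^ 2 ≤ (‖z - m‖ + ‖z‖) ^ 2 := pow_le_pow_left₀ (norm_nonneg _) h6 2
  have h8 : (‖z - m‖ + ‖z‖) ^ 2 = ‖z - m‖ ^ 2 + ‖z‖ ^ 2 + 2 * (‖z - m‖ * ‖z‖) := by ring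
  rw [h8, h1, h4] at h7
  linarith only [a1, a2, a3, a4, h5, h7]

theorem abs_ge_of_sq {x s : ℝ} (hs : 0 < s) (hs1 : s ≤ 1 / 1000)
    (h : 1 / 4 - 9 * s + 31 * s ^ 2 ≤ x ^ 2) : 1 / 2 - 10 * s ≤ |x| := by
  by_contra hcon
  push Not at hcon
  have h1 : x ^ 2 < (1 / 2 - 10 * s) ^ 2 := by
    rw [← sq_abs x]
    exact pow_lt_pow_left₀ hcon (abs_nonneg _) two_ne_zero
  nlinarith only [h, h1, hs, hs1]

theorem ubound {s x y : ℝ} (hs : 0 < s) (hs1 : s ≤ 1 / 1000)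
    (h1 : x ^ 2 + y ^ 2 ≤ 1 / 2 + 4 * s + 8 * s ^ 2) (hy : 1 / 2 - 3 * s ≤ y) :
    x ≤ 1 / 2 + 7 * s := by
  have h2 : (1 / 2 - 3 * s) ^ 2 ≤ y ^ 2 := pow_le_pow_left₀ (by linarith only [hs1]) hy 2
  have h3 : x ^ 2 ≤ 1 / 4 + 7 * s - s ^ 2 := by
    have : (1 / 2 - 3 * s) ^ 2 = 1 / 4 - 3 * s + 9 * s ^ 2 := by ring
    linarith only [h1, h2]
  by_contra hcon
  push Not at hcon
  have h4 : (1 / 2 + 7 * s) ^ 2 < x ^ 2 := pow_lt_pow_left₀ hcon (by linarith only [hs]) two_ne_zero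
  have h5 : (1 / 2 + 7 * s) ^ 2 = 1 / 4 + 7 * s + 49 * s ^ 2 := by ring
  have h6 := sq_nonneg s
  linarith only [h1, h2, h4, h6]

theorem key_bound {s : ℝ} {m u z : ℂ} {α β : ℝ} (hs : 0 < s) (hu : ‖u‖ = 1)
    (hz1 : |z.re| ≤ s) (hz2 : |z.im| ≤ s) (hz : z = m + u * (α + β * Complex.I))
    (hm1 : |m.re - 1 / 2| ≤ 7 * s) (hm2 : |m.im - 1 / 2| ≤ 7 * s)
    (ε₁ ε₂ : ℝ) (k : ℕ) (he1 : ε₁ ^ 2 = 1) (he2 : ε₂ ^ 2 = 1) (hd1 : |α - ε₁ / 2| ≤ 10 * s)
    (hd2 : |β - ε₂ / 2| ≤ 10 * s)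
    (hI : Complex.I ^ k * (⟨ε₁ / 2, ε₂ / 2⟩ : ℂ) = ⟨-1 / 2, -1 / 2⟩) :
    ‖u - Complex.I ^ k‖ ≤ 40 * s := by
  obtain ⟨x1, x2⟩ := abs_le.1 hz1
  obtain ⟨y1, y2⟩ := abs_le.1 hz2
  obtain ⟨p1, p2⟩ := abs_le.1 hm1
  obtain ⟨q1, q2⟩ := abs_le.1 hm2
  have hab : (α : ℂ) + β * Complex.I
      = ⟨ε₁ / 2, ε₂ / 2⟩ + ⟨α - ε₁ / 2, β - ε₂ / 2⟩ := by
    apply Complex.ext
    · simp
    · simp
  have hmain : (u - Complex.I ^ k) * (⟨ε₁ / 2, ε₂ / 2⟩ : ℂ)
      = ((z - m) - ⟨-1 / 2, -1 / 2⟩) - u * ⟨α - ε₁ / 2, β - ε₂ / 2⟩ := by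
    have h3 : z - m = u * (⟨ε₁ / 2, ε₂ / 2⟩ + ⟨α - ε₁ / 2, β - ε₂ / 2⟩) := by
      rw [hz, hab]; ring
    rw [← hI, h3]
    ring
  have hn2 : ‖(⟨α - ε₁ / 2, β - ε₂ / 2⟩ : ℂ)‖ ≤ 3 / 2 * (10 * s) :=
    norm_le_of_comp (by linarith only [hs]) hd1 hd2
  have hn1 : ‖((z - m) - ⟨-1 / 2, -1 / 2⟩ : ℂ)‖ ≤ 3 / 2 * (8 * s) := by
    refine norm_le_of_comp (by linarith only [hs]) ?_ ?_
    · rw [Complex.sub_re, Complex.sub_re, abs_le]
      constructor <;> simp only <;> linarith only [x1, p2, x2, p1]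
    · rw [Complex.sub_im, Complex.sub_im, abs_le]
      constructor <;> simp only <;> linarith only [y1, q2, y2, q1]
  have hEn : 7 / 10 ≤ ‖(⟨ε₁ / 2, ε₂ / 2⟩ : ℂ)‖ := by
    have h5 : ‖(⟨ε₁ / 2, ε₂ / 2⟩ : ℂ)‖ ^ 2 = 1 / 2 := by
      rw [Complex.sq_norm, Complex.normSq_apply]
      have : ε₁ / 2 * (ε₁ / 2) + ε₂ / 2 * (ε₂ / 2) = (ε₁ ^ 2 + ε₂ ^ 2) / 4 := by ring
      simp only
      rw [this, he1, he2]
      norm_num
    have h6 : (7 / 10 : ℝ) ^ 2 ≤ ‖(⟨ε₁ / 2, ε₂ / 2⟩ : ℂ)‖ ^ 2 := by rw [h5]; norm_num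
    exact (pow_le_pow_iff_left₀ (by norm_num) (norm_nonneg _) two_ne_zero).1 h6
  have h6 : ‖u - Complex.I ^ k‖ * ‖(⟨ε₁ / 2, ε₂ / 2⟩ : ℂ)‖ ≤ 27 * s := by
    rw [← norm_mul, hmain]
    calc ‖((z - m) - ⟨-1 / 2, -1 / 2⟩) - u * (⟨α - ε₁ / 2, β - ε₂ / 2⟩ : ℂ)‖
        ≤ ‖((z - m) - ⟨-1 / 2, -1 / 2⟩ : ℂ)‖ + ‖u * (⟨α - ε₁ / 2, β - ε₂ / 2⟩ : ℂ)‖ :=
          norm_sub_le _ _
      _ = ‖((z - m) - ⟨-1 / 2, -1 / 2⟩ : ℂ)‖ + ‖(⟨α - ε₁ / 2, β - ε₂ / 2⟩ : ℂ)‖ := by
          rw [norm_mul, hu, one_mul]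
      _ ≤ 27 * s := by linarith only [hn2, hn1]
  have h7 : ‖u - Complex.I ^ k‖ * (7 / 10)
      ≤ ‖u - Complex.I ^ k‖ * ‖(⟨ε₁ / 2, ε₂ / 2⟩ : ℂ)‖ :=
    mul_le_mul_of_nonneg_left hEn (norm_nonneg _)
  linarith only [hs, h6, h7]

theorem finish {s : ℝ} {m u z : ℂ} {α β : ℝ} (hs : 0 < s) (hs1 : s ≤ 1 / 1000) (hu : ‖u‖ = 1)
    (hz1 : |z.re| ≤ s) (hz2 : |z.im| ≤ s) (hz : z = m + u * (α + β * Complex.I))
    (hα : |α| ≤ 1 / 2 + s) (hβ : |β| ≤ 1 / 2 + s) (ha : 1 / 2 - 3 * s ≤ m.re)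
    (hb : 1 / 2 - 3 * s ≤ m.im) :
    |m.re - 1 / 2| ≤ 40 * s ∧ |m.im - 1 / 2| ≤ 40 * s ∧
      ∃ k : ℕ, k < 4 ∧ ‖u - Complex.I ^ k‖ ≤ 40 * s := by
  obtain ⟨h1, h2⟩ := centre_bound hs hu hz1 hz2 hz hα hβ
  obtain ⟨x1, x2⟩ := abs_le.1 hz1
  obtain ⟨y1, y2⟩ := abs_le.1 hz2
  have ha' : m.re ≤ 1 / 2 + 7 * s := ubound hs hs1 h1 hb
  have hb' : m.im ≤ 1 / 2 + 7 * s := ubound hs hs1 (by linarith only [h1]) ha
  refine ⟨by rw [abs_le]; constructor <;> linarith only [hs, ha, ha'], by rw [abs_le]; constructor <;> linarith only [hs, hb, hb'], ?_⟩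
  have hm1 : |m.re - 1 / 2| ≤ 7 * s := by rw [abs_le]; constructor <;> linarith only [hs, ha, ha']
  have hm2 : |m.im - 1 / 2| ≤ 7 * s := by rw [abs_le]; constructor <;> linarith only [hs, hb, hb']
  have hsum : 1 / 2 - 8 * s + 32 * s ^ 2 ≤ α ^ 2 + β ^ 2 := by
    rw [← h2]
    have b1 : 1 / 2 - 4 * s ≤ m.re - z.re := by linarith only [ha, x2]
    have b2 : 1 / 2 - 4 * s ≤ m.im - z.im := by linarith only [hb, y2]
    have b3 : (1 / 2 - 4 * s) ^ 2 ≤ (m.re - z.re) ^ 2 :=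
      pow_le_pow_left₀ (by linarith only [hs1]) b1 2
    have b4 : (1 / 2 - 4 * s) ^ 2 ≤ (m.im - z.im) ^ 2 :=
      pow_le_pow_left₀ (by linarith only [hs1]) b2 2
    have b5 : (1 / 2 - 4 * s) ^ 2 = 1 / 4 - 4 * s + 16 * s ^ 2 := by ring
    have b6 : (m.re - z.re) ^ 2 = (z.re - m.re) ^ 2 := by ring
    have b7 : (m.im - z.im) ^ 2 = (z.im - m.im) ^ 2 := by ring
    linarith only [b3, b4]
  have a3 : α ^ 2 ≤ (1 / 2 + s) ^ 2 := sq_le_sq' (abs_le.1 hα).1 (abs_le.1 hα).2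
  have a4 : β ^ 2 ≤ (1 / 2 + s) ^ 2 := sq_le_sq' (abs_le.1 hβ).1 (abs_le.1 hβ).2
  have a5 : (1 / 2 + s) ^ 2 = 1 / 4 + s + s ^ 2 := by ring
  have hα' := abs_ge_of_sq (x := α) hs hs1 (by linarith only [hsum, a4])
  have hβ' := abs_ge_of_sq (x := β) hs hs1 (by linarith only [hsum, a3])
  clear hsum a3 a4 a5
  have key := key_bound hs hu hz1 hz2 hz hm1 hm2
  obtain ⟨α1, α2⟩ := abs_le.1 hα
  obtain ⟨β1, β2⟩ := abs_le.1 hβ
  rcases le_total 0 α with hα0 | hα0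
  · rw [abs_of_nonneg hα0] at hα'
    have hA : |α - 1 / 2| ≤ 10 * s := by rw [abs_le]; constructor <;> linarith only [hα', hs, α2]
    rcases le_total 0 β with hβ0 | hβ0
    · rw [abs_of_nonneg hβ0] at hβ'
      have hB : |β - 1 / 2| ≤ 10 * s := by rw [abs_le]; constructor <;> linarith only [hβ', hs, β2]
      refine ⟨2, by norm_num, key 1 1 2 (by norm_num) (by norm_num) hA hB ?_⟩
      rw [Complex.I_sq]
      apply Complex.ext <;> simp <;> norm_num
    · rw [abs_of_nonpos hβ0] at hβ'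
      have hB : |β - -1 / 2| ≤ 10 * s := by rw [abs_le]; constructor <;> linarith only [hs, β1, hβ']
      refine ⟨3, by norm_num, key 1 (-1) 3 (by norm_num) (by norm_num) hA hB ?_⟩
      rw [Complex.I_pow_three]
      apply Complex.ext <;> simp
      norm_num
  · rw [abs_of_nonpos hα0] at hα'
    have hA : |α - -1 / 2| ≤ 10 * s := by rw [abs_le]; constructor <;> linarith only [hs, α1, hα']
    rcases le_total 0 β with hβ0 | hβ0
    · rw [abs_of_nonneg hβ0] at hβ'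
      have hB : |β - 1 / 2| ≤ 10 * s := by rw [abs_le]; constructor <;> linarith only [hβ', hs, β2]
      refine ⟨1, by norm_num, key (-1) 1 1 (by norm_num) (by norm_num) hA hB ?_⟩
      rw [pow_one]
      apply Complex.ext <;> simp
      norm_num
    · rw [abs_of_nonpos hβ0] at hβ'
      have hB : |β - -1 / 2| ≤ 10 * s := by rw [abs_le]; constructor <;> linarith only [hs, β1, hβ']
      refine ⟨0, by norm_num, key (-1) (-1) 0 (by norm_num) (by norm_num) hA hB ?_⟩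
      rw [pow_zero, one_mul]

/-- distances from small component differences -/
theorem norm_lt_of_comp {w : ℂ} {R T : ℝ} (hR : 0 ≤ R) (h1 : |w.re| ≤ R) (h2 : |w.im| ≤ R)
    (hT : 3 / 2 * R < T) : ‖w‖ < T := (norm_le_of_comp hR h1 h2).trans_lt hT

theorem c1 : C1Stmt := by
  intro s m u z α β hs hs1 hu hL hD hLD hz1 hz2 hz hα hβ
  obtain ⟨h1, -⟩ := centre_bound hs hu hz1 hz2 hz hα hβ
  have hq : m.re ^ 2 + m.im ^ 2 ≤ 51 / 100 := by nlinarith only [hs1, h1, hs]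
  have hre1 : m.re ≤ 72 / 100 := by nlinarith only [hs1, h1, hs, sq_nonneg m.im]
  have hre2 : -(72 / 100) ≤ m.re := by nlinarith only [hs1, h1, hs, sq_nonneg m.im]
  have him1 : m.im ≤ 72 / 100 := by nlinarith only [hq, sq_nonneg m.re]
  have him2 : -(72 / 100) ≤ m.im := by nlinarith only [hs1, h1, hs, sq_nonneg m.re]
  -- the imaginary part
  have hb : s ≤ m.im := by
    by_contra hcon
    push Not at hcon
    have hwi1 : -1 + s ≤ min m.im (-s) := le_min (by linarith only [hs1, him2]) (by linarith only [hs1])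
    have hwi2 : min m.im (-s) ≤ -s := min_le_right _ _
    have hwi3 : |min m.im (-s) - m.im| ≤ 2 * s := by
      rw [abs_le]
      constructor
      · rcases min_cases m.im (-s) with ⟨h, -⟩ | ⟨h, -⟩ <;> rw [h] <;> linarith only [hs, hcon]
      · have := min_le_left m.im (-s)
        linarith only [hs, this]
    by_cases ha : s ≤ m.re
    · have h5 := hD ⟨m.re, min m.im (-s)⟩ ha (by change m.re ≤ 1 - s; linarith only [hs1, hre1]) hwi1 hwi2
      have h6 : ‖(⟨m.re, min m.im (-s)⟩ : ℂ) - m‖ < 1 / 2 - s := by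
        refine norm_lt_of_comp (R := 2 * s) (by linarith only [hs]) ?_ ?_ (by linarith only [hs1])
        · rw [Complex.sub_re]
          simp only [sub_self, abs_zero]
          linarith only [hs]
        · rw [Complex.sub_im]
          exact hwi3
      linarith only [h5, h6]
    · push Not at ha
      have hwr3 : |min m.re (-s) - m.re| ≤ 2 * s := by
        rw [abs_le]
        constructor
        · rcases min_cases m.re (-s) with ⟨h, -⟩ | ⟨h, -⟩ <;> rw [h] <;> linarith only [hs, ha]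
        · have := min_le_left m.re (-s)
          linarith only [hs, this]
      have h5 := hLD ⟨min m.re (-s), min m.im (-s)⟩ (le_min (by linarith only [hs1, hre2]) (by linarith only [hs1]))
        (min_le_right _ _) hwi1 hwi2
      have h6 : ‖(⟨min m.re (-s), min m.im (-s)⟩ : ℂ) - m‖ < 1 / 2 - s := by
        refine norm_lt_of_comp (R := 2 * s) (by linarith only [hs]) ?_ ?_ (by linarith only [hs1])
        · rw [Complex.sub_re]
          exact hwr3
        · rw [Complex.sub_im]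
          exact hwi3
      linarith only [h5, h6]
  have ha : s ≤ m.re := by
    by_contra hcon
    push Not at hcon
    have hwr3 : |min m.re (-s) - m.re| ≤ 2 * s := by
      rw [abs_le]
      constructor
      · rcases min_cases m.re (-s) with ⟨h, -⟩ | ⟨h, -⟩ <;> rw [h] <;> linarith only [hs, hcon]
      · have := min_le_left m.re (-s)
        linarith only [hs, this]
    have h5 := hL ⟨min m.re (-s), m.im⟩ (le_min (by linarith only [hs1, hre2]) (by linarith only [hs1]))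
      (min_le_right _ _) hb (by change m.im ≤ 1 - s; linarith only [hs1, him1])
    have h6 : ‖(⟨min m.re (-s), m.im⟩ : ℂ) - m‖ < 1 / 2 - s := by
      refine norm_lt_of_comp (R := 2 * s) (by linarith only [hs]) ?_ ?_ (by linarith only [hs1])
      · rw [Complex.sub_re]
        exact hwr3
      · rw [Complex.sub_im]
        simp only [sub_self, abs_zero]
        linarith only [hs]
    linarith only [h5, h6]
  have ha2 : 1 / 2 - 2 * s ≤ m.re := by
    have h5 := hL ⟨-s, m.im⟩ (by change -1 + s ≤ -s; linarith only [hs1]) le_rfl hb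
      (by change m.im ≤ 1 - s; linarith only [hs1, him1])
    have h6 : (⟨-s, m.im⟩ : ℂ) - m = ((-(s + m.re) : ℝ) : ℂ) := by
      apply Complex.ext
      · simp
        ring
      · simp
    rw [h6, Complex.norm_real, Real.norm_eq_abs, abs_neg, abs_of_nonneg (by linarith only [hs, ha])] at h5
    linarith only [h5]
  have hb2 : 1 / 2 - 2 * s ≤ m.im := by
    have h5 := hD ⟨m.re, -s⟩ ha (by change m.re ≤ 1 - s; linarith only [hs1, hre1])
      (by change -1 + s ≤ -s; linarith only [hs1]) le_rfl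
    have h6 : (⟨m.re, -s⟩ : ℂ) - m = ((-(s + m.im) : ℝ) : ℂ) * Complex.I := by
      apply Complex.ext
      · simp
      · simp
        ring
    rw [h6, norm_mul, Complex.norm_I, mul_one, Complex.norm_real, Real.norm_eq_abs, abs_neg,
      abs_of_nonneg (by linarith only [hs, hb])] at h5
    linarith only [h5]
  exact finish hs hs1 hu hz1 hz2 hz hα hβ (by linarith only [hs, ha2]) (by linarith only [hs, hb2])

theorem c2 : C2Stmt := by
  intro s m u z α β hs hs1 hu hL hD1 hD2 hz1 hz2 hz hα hβ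
  obtain ⟨h1, -⟩ := centre_bound hs hu hz1 hz2 hz hα hβ
  have hq : m.re ^ 2 + m.im ^ 2 ≤ 51 / 100 := by nlinarith only [hs1, h1, hs]
  have hre1 : m.re ≤ 72 / 100 := by nlinarith [sq_nonneg m.im]
  have hre2 : -(72 / 100) ≤ m.re := by nlinarith only [hs1, h1, hs, sq_nonneg m.im]
  have him1 : m.im ≤ 72 / 100 := by nlinarith only [hq, sq_nonneg m.re]
  have him2 : -(72 / 100) ≤ m.im := by nlinarith only [hs1, h1, hs, sq_nonneg m.re]
  have hb : s ≤ m.im := by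
    by_contra hcon
    push Not at hcon
    have hwi1 : -1 + s ≤ min m.im (-s) := le_min (by linarith only [hs1, him2]) (by linarith only [hs1])
    have hwi2 : min m.im (-s) ≤ -s := min_le_right _ _
    have hwi3 : |min m.im (-s) - m.im| ≤ 23 / 100 := by
      rw [abs_le]
      constructor
      · rcases min_cases m.im (-s) with ⟨h, -⟩ | ⟨h, -⟩ <;> rw [h] <;> linarith only [hs1, hcon]
      · have := min_le_left m.im (-s)
        linarith only [this]
    by_cases ha : 1 / 2 + s ≤ m.re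
    · have h5 := hD2 ⟨m.re, min m.im (-s)⟩ ha (by change m.re ≤ 3 / 2 - s; linarith only [hs1, hre1]) hwi1 hwi2
      have h6 : ‖(⟨m.re, min m.im (-s)⟩ : ℂ) - m‖ < 1 / 2 - s := by
        refine norm_lt_of_comp (R := 23 / 100) (by norm_num) ?_ ?_ (by linarith only [hs1])
        · rw [Complex.sub_re]
          simp only [sub_self, abs_zero]
          norm_num
        · rw [Complex.sub_im]
          exact hwi3
      linarith only [h5, h6]
    · push Not at ha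
      have hw1 : -1 / 2 + s ≤ max (-1 / 2 + s) (min m.re (1 / 2 - s)) := le_max_left _ _
      have hw2 : max (-1 / 2 + s) (min m.re (1 / 2 - s)) ≤ 1 / 2 - s :=
        max_le (by linarith only [hs1]) (min_le_right _ _)
      have hw3 : |max (-1 / 2 + s) (min m.re (1 / 2 - s)) - m.re| ≤ 23 / 100 := by
        rw [abs_le]
        constructor
        · have h5 : min m.re (1 / 2 - s) ≤ max (-1 / 2 + s) (min m.re (1 / 2 - s)) :=
            le_max_right _ _
          rcases min_cases m.re (1 / 2 - s) with ⟨h, -⟩ | ⟨h, -⟩ <;> rw [h] at h5 ⊢ <;> linarith only [h5, hs1, ha]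
        · have h5 := min_le_left m.re (1 / 2 - s)
          have h6 : max (-1 / 2 + s) (min m.re (1 / 2 - s)) ≤ m.re + 23 / 100 :=
            max_le (by linarith only [hs1, hre2]) (by linarith only [h5])
          linarith only [h6]
      have h5 := hD1 ⟨max (-1 / 2 + s) (min m.re (1 / 2 - s)), min m.im (-s)⟩ hw1 hw2 hwi1 hwi2
      have h6 : ‖(⟨max (-1 / 2 + s) (min m.re (1 / 2 - s)), min m.im (-s)⟩ : ℂ) - m‖
          < 1 / 2 - s := by
        refine norm_lt_of_comp (R := 23 / 100) (by norm_num) ?_ ?_ (by linarith only [hs1])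
        · rw [Complex.sub_re]
          exact hw3
        · rw [Complex.sub_im]
          exact hwi3
      linarith only [h5, h6]
  have ha : s ≤ m.re := by
    by_contra hcon
    push Not at hcon
    have hw1 : -1 / 2 + s ≤ max (-1 / 2 + s) (min m.re (-s)) := le_max_left _ _
    have hw2 : max (-1 / 2 + s) (min m.re (-s)) ≤ -s :=
      max_le (by linarith only [hs1]) (min_le_right _ _)
    have hw3 : |max (-1 / 2 + s) (min m.re (-s)) - m.re| ≤ 23 / 100 := by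
      rw [abs_le]
      constructor
      · have h5 : min m.re (-s) ≤ max (-1 / 2 + s) (min m.re (-s)) := le_max_right _ _
        rcases min_cases m.re (-s) with ⟨h, -⟩ | ⟨h, -⟩ <;> rw [h] at h5 ⊢ <;> linarith only [h5, hs1, hcon]
      · have h5 := min_le_left m.re (-s)
        have h6 : max (-1 / 2 + s) (min m.re (-s)) ≤ m.re + 23 / 100 :=
          max_le (by linarith only [hs1, hre2]) (by linarith only [h5])
        linarith only [h6]
    have h5 := hL ⟨max (-1 / 2 + s) (min m.re (-s)), m.im⟩ hw1 hw2 hb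
      (by change m.im ≤ 1 - s; linarith only [hs1, him1])
    have h6 : ‖(⟨max (-1 / 2 + s) (min m.re (-s)), m.im⟩ : ℂ) - m‖ < 1 / 2 - s := by
      refine norm_lt_of_comp (R := 23 / 100) (by norm_num) ?_ ?_ (by linarith only [hs1])
      · rw [Complex.sub_re]
        exact hw3
      · rw [Complex.sub_im]
        simp only [sub_self, abs_zero]
        norm_num
    linarith only [h5, h6]
  have ha2 : 1 / 2 - 2 * s ≤ m.re := by
    have h5 := hL ⟨-s, m.im⟩ (by change -1 / 2 + s ≤ -s; linarith only [hs1]) le_rfl hb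
      (by change m.im ≤ 1 - s; linarith only [hs1, him1])
    have h6 : (⟨-s, m.im⟩ : ℂ) - m = ((-(s + m.re) : ℝ) : ℂ) := by
      apply Complex.ext
      · simp
        ring
      · simp
    rw [h6, Complex.norm_real, Real.norm_eq_abs, abs_neg, abs_of_nonneg (by linarith only [hs, ha])] at h5
    linarith only [h5]
  have hb2 : 1 / 2 - 3 * s ≤ m.im := by
    -- a point below with horizontal difference at most `s`
    have hgen : ∀ x : ℝ, |x - m.re| ≤ s → 1 / 2 - s ≤ ‖(⟨x, -s⟩ : ℂ) - m‖ →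
        1 / 2 - 3 * s ≤ m.im := by
      intro x hx h
      have h5 : ‖(⟨x, -s⟩ : ℂ) - m‖ ^ 2 = (x - m.re) ^ 2 + (s + m.im) ^ 2 := by
        rw [Complex.sq_norm, Complex.normSq_apply, Complex.sub_re, Complex.sub_im]
        ring
      have h6 : (1 / 2 - s) ^ 2 ≤ ‖(⟨x, -s⟩ : ℂ) - m‖ ^ 2 :=
        pow_le_pow_left₀ (by linarith only [hs1]) h 2
      rw [h5] at h6
      have h7 : (x - m.re) ^ 2 ≤ s ^ 2 := sq_le_sq' (abs_le.1 hx).1 (abs_le.1 hx).2
      by_contra hcon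
      push Not at hcon
      nlinarith only [h6, h7, hs, hcon, hb]
    by_cases hx : m.re ≤ 1 / 2
    · refine hgen (min m.re (1 / 2 - s)) ?_ (hD1 ⟨min m.re (1 / 2 - s), -s⟩
        (le_min (by linarith only [ha]) (by linarith only [hs1])) (min_le_right _ _)
        (by change -1 + s ≤ -s; linarith only [hs1]) le_rfl)
      rw [abs_le]
      constructor
      · rcases min_cases m.re (1 / 2 - s) with ⟨h, -⟩ | ⟨h, -⟩ <;> rw [h] <;> linarith only [hs, hx]
      · have := min_le_left m.re (1 / 2 - s)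
        linarith only [hs, this]
    · push Not at hx
      refine hgen (max m.re (1 / 2 + s)) ?_ (hD2 ⟨max m.re (1 / 2 + s), -s⟩
        (le_max_right _ _) (max_le (by linarith only [hs1, hre1]) (by linarith only [hs1]))
        (by change -1 + s ≤ -s; linarith only [hs1]) le_rfl)
      rw [abs_le]
      constructor
      · have := le_max_left m.re (1 / 2 + s)
        linarith only [hs, this]
      · rcases max_cases m.re (1 / 2 + s) with ⟨h, -⟩ | ⟨h, -⟩ <;> rw [h] <;> linarith only [hs, hx]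
  exact finish hs hs1 hu hz1 hz2 hz hα hβ (by linarith only [hs, ha2]) hb2

end Pool.Agent.Helper60_Pack
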