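import Pool.Agent.Helper2_Pack.Stmts3

/-!
# PACK module C7, helper60
-/

namespace Pool.Agent.Helper60_Pack

open Pool.Agent.Helper2_Pack Complex

theorem norm_le_one_of {w : ℂ} (h1 : |w.re| ≤ 7 / 10) (h2 : |w.im| ≤ 7 / 10) : ‖w‖ ≤ 1 := by
  have h3 : ‖w‖ ^ 2 ≤ 1 := by
    rw [Complex.sq_norm, Complex.normSq_apply]
    have a1 := abs_mul_abs_self w.re
    have a2 := abs_mul_abs_self w.im
    nlinarith only [h1, h2, a1, a2, abs_nonneg w.re, abs_nonneg w.im]
  nlinarith only [h3, norm_nonneg w]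

theorem rot_bound {u w : ℂ} {e R : ℝ} {k : ℕ} (hk : k < 4) (hu : ‖u - I ^ k‖ ≤ e)
    (h1 : |w.re| ≤ R) (h2 : |w.im| ≤ R) (hw : ‖w‖ ≤ 1) :
    |(u * w).re| ≤ R + e ∧ |(u * w).im| ≤ R + e := by
  have h3 : u * w = I ^ k * w + (u - I ^ k) * w := by ring
  have h4 : ‖(u - I ^ k) * w‖ ≤ e := by
    rw [norm_mul]
    calc ‖u - I ^ k‖ * ‖w‖ ≤ ‖u - I ^ k‖ * 1 := mul_le_mul_of_nonneg_left hw (norm_nonneg _)
      _ ≤ e := by rw [mul_one]; exact hu
  have h5 := (Complex.abs_re_le_norm ((u - I ^ k) * w)).trans h4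
  have h6 := (Complex.abs_im_le_norm ((u - I ^ k) * w)).trans h4
  have h7 : |(I ^ k * w).re| ≤ R ∧ |(I ^ k * w).im| ≤ R := by
    interval_cases k
    · simpa using ⟨h1, h2⟩
    · rw [pow_one]
      refine ⟨?_, ?_⟩
      · simpa using h2
      · simpa using h1
    · rw [Complex.I_sq]
      refine ⟨?_, ?_⟩
      · simpa using h1
      · simpa using h2
    · have : (I : ℂ) ^ 3 = -I := Complex.I_pow_three
      rw [this]
      refine ⟨?_, ?_⟩
      · simpa using h2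
      · simpa using h1
  rw [h3, Complex.add_re, Complex.add_im]
  exact ⟨(abs_add_le _ _).trans (add_le_add h7.1 h5), (abs_add_le _ _).trans (add_le_add h7.2 h6)⟩

theorem conj_near {u : ℂ} {e : ℝ} {k : ℕ} (hk : k < 4) (hu : ‖u - I ^ k‖ ≤ e) :
    ∃ k' < 4, ‖(starRingEnd ℂ) u - I ^ k'‖ ≤ e := by
  refine ⟨(4 - k) % 4, Nat.mod_lt _ (by norm_num), ?_⟩
  have h1 : (starRingEnd ℂ) u - I ^ ((4 - k) % 4) = (starRingEnd ℂ) (u - I ^ k) := by
    rw [map_sub, map_pow, Complex.conj_I]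
    interval_cases k
    · simp
    · simp [Complex.I_pow_three]
    · simp
    · norm_num
      rw [Odd.neg_pow (by decide), Complex.I_pow_three, neg_neg]
  rw [h1, Complex.norm_conj]
  exact hu

theorem c7 (hS3 : S3Stmt) : C7Stmt := by
  intro q e a g hq0 hq1 he0 he1 hnear
  obtain ⟨hm1, hm2, k, hk, hu⟩ := hnear
  set m := g.app ⟨1 / 2, 1 / 2⟩ with hm
  have hmv : g.v = m - g.u * ⟨1 / 2, 1 / 2⟩ := by
    rw [hm, Motion.app]
    ring
  have hunit : (starRingEnd ℂ) g.u * g.u = 1 := by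
    rw [mul_comm, Complex.mul_conj, Complex.normSq_eq_norm_sq, g.unit]
    norm_num
  obtain ⟨a1, a2⟩ := abs_le.1 hm1
  obtain ⟨a3, a4⟩ := abs_le.1 hm2
  rw [Complex.sub_re] at a1 a2
  rw [Complex.sub_im] at a3 a4
  constructor
  · intro z h1 h2 h3 h4
    rw [Complex.sub_re] at h1 h2
    rw [Complex.sub_im] at h3 h4
    obtain ⟨k', hk', hu'⟩ := conj_near hk hu
    have h5 : (starRingEnd ℂ) g.u * (z - g.v) = (starRingEnd ℂ) g.u * (z - m) + ⟨1 / 2, 1 / 2⟩ := by
      rw [hmv]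
      have : z - (m - g.u * ⟨1 / 2, 1 / 2⟩) = (z - m) + g.u * ⟨1 / 2, 1 / 2⟩ := by ring
      rw [this, mul_add, ← mul_assoc, hunit, one_mul]
    have hR1 : |(z - m).re| ≤ 1 / 2 - 2 * q - e := by
      rw [Complex.sub_re, abs_le]
      constructor <;> linarith only [a2, h1, a1, h2]
    have hR2 : |(z - m).im| ≤ 1 / 2 - 2 * q - e := by
      rw [Complex.sub_im, abs_le]
      constructor <;> linarith only [a4, h3, a3, h4]
    obtain ⟨h6, h7⟩ := rot_bound hk' hu' hR1 hR2 (norm_le_one_of (by linarith only [hq0, he0, hR1]) (by linarith only [hq0, he0, hR2]))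
    obtain ⟨b1, b2⟩ := abs_le.1 h6
    obtain ⟨b3, b4⟩ := abs_le.1 h7
    unfold InCore
    rw [h5, Complex.add_re, Complex.add_im]
    simp only
    refine ⟨by linarith only [b1], by linarith only [b2], by linarith only [b3], by linarith only [b4]⟩
  · intro s z hz
    obtain ⟨ζ, hζ, rfl⟩ := hz
    have hs := (hS3 q s hq0 (by linarith only [hq1])).2.1 hζ
    obtain ⟨c1, c2, c3, c4⟩ := hs
    have h5 : g.app ζ = m + g.u * (ζ - ⟨1 / 2, 1 / 2⟩) := by
      rw [Motion.app, hmv]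
      ring
    have hR1 : |(ζ - ⟨1 / 2, 1 / 2⟩ : ℂ).re| ≤ 1 / 2 + q := by
      rw [Complex.sub_re, abs_le]
      constructor <;> simp only <;> linarith only [hq0, c1, c2]
    have hR2 : |(ζ - ⟨1 / 2, 1 / 2⟩ : ℂ).im| ≤ 1 / 2 + q := by
      rw [Complex.sub_im, abs_le]
      constructor <;> simp only <;> linarith only [hq0, c3, c4]
    obtain ⟨h6, h7⟩ := rot_bound hk hu hR1 hR2 (norm_le_one_of (by linarith only [hq1, hR1]) (by linarith only [hq1, hR2]))
    obtain ⟨b1, b2⟩ := abs_le.1 h6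
    obtain ⟨b3, b4⟩ := abs_le.1 h7
    rw [h5, Complex.sub_re, Complex.sub_im, Complex.add_re, Complex.add_im]
    refine ⟨by linarith only [a1, b1], by linarith only [a2, b2], by linarith only [a3, b3], by linarith only [a4, b4]⟩

end Pool.Agent.Helper60_Pack
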