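import Pool.Agent.Helper2_Pack.Stmts3

/-!
# PACK modules K1, K2, helper60
-/

namespace Pool.Agent.Helper60_Pack

open Pool.Agent.Helper2_Pack

theorem tents_le_iff (g : ℝ) (L : List (ℝ × ℝ)) (x c : ℝ) :
    tents g L x ≤ c ↔ g ≤ c ∧ ∀ d ∈ L, d.2 - |x - d.1| ≤ c := by
  induction L with
  | nil => simp [tents]
  | cons d L ih =>
    have h1 : tents g (d :: L) x = max (d.2 - |x - d.1|) (tents g L x) := rfl
    rw [h1, max_le_iff, ih]
    constructor
    · rintro ⟨h2, h3, h4⟩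
      refine ⟨h3, fun e he => ?_⟩
      rcases List.mem_cons.1 he with rfl | he
      · exact h2
      · exact h4 e he
    · rintro ⟨h2, h3⟩
      exact ⟨h3 d List.mem_cons_self, h2, fun e he => h3 e (List.mem_cons_of_mem _ he)⟩

theorem base_le_tents (g : ℝ) (L : List (ℝ × ℝ)) (x : ℝ) : g ≤ tents g L x :=
  ((tents_le_iff g L x _).1 le_rfl).1

theorem mem_le_tents (g : ℝ) (L : List (ℝ × ℝ)) (x : ℝ) (d : ℝ × ℝ) (hd : d ∈ L) :
    d.2 - |x - d.1| ≤ tents g L x :=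
  ((tents_le_iff g L x _).1 le_rfl).2 d hd

theorem cham_nonneg (q xl x : ℝ) : 0 ≤ cham q xl x := le_max_left _ _

theorem cham_left (q xl x : ℝ) : xl + 8 * q ^ 3 - x ≤ cham q xl x :=
  (le_max_left _ _).trans (le_max_right _ _)

theorem cham_right (q xl x : ℝ) : min (8 * q ^ 3) (x - 1 + 8 * q ^ 3) ≤ cham q xl x :=
  (le_max_right _ _).trans (le_max_right _ _)

/-- powers of `q` -/
theorem qpow {q : ℝ} (h0 : 0 < q) (h1 : q ≤ 1 / 2 ^ 20) :
    0 < q ^ 2 ∧ 0 < q ^ 3 ∧ 0 < q ^ 4 ∧ q ^ 4 ≤ q ^ 3 / 2 ^ 20 ∧ q ^ 3 ≤ q ^ 2 / 2 ^ 20 ∧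
      q ^ 2 ≤ q / 2 ^ 20 := by
  refine ⟨by positivity, by positivity, by positivity, ?_, ?_, ?_⟩
  · have := mul_le_mul_of_nonneg_left h1 (by positivity : (0 : ℝ) ≤ q ^ 3)
    calc q ^ 4 = q ^ 3 * q := by ring
      _ ≤ q ^ 3 * (1 / 2 ^ 20) := this
      _ = q ^ 3 / 2 ^ 20 := by ring
  · have := mul_le_mul_of_nonneg_left h1 (by positivity : (0 : ℝ) ≤ q ^ 2)
    calc q ^ 3 = q ^ 2 * q := by ring
      _ ≤ q ^ 2 * (1 / 2 ^ 20) := this
      _ = q ^ 2 / 2 ^ 20 := by ring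
  · have := mul_le_mul_of_nonneg_left h1 h0.le
    calc q ^ 2 = q * q := by ring
      _ ≤ q * (1 / 2 ^ 20) := this
      _ = q / 2 ^ 20 := by ring

theorem sgn_cases (t : Tile) : t.sgn = 0 ∨ t.sgn = 1 ∨ t.sgn = -1 := by
  cases t <;> simp [Tile.sgn]

theorem marks_ge (a : Col) : ∀ p ∈ a.marks, 10 ≤ p ∧ p ≤ 29 := by
  cases a <;> simp [Col.marks]

theorem hi_le_tents (q : ℝ) (t : Tile) (x : ℝ) :
    (t.sh q).hi x ≤ tents 1 (t.top.marks.map fun p : ℕ => ((p : ℝ) / 32, 1 + q)) x := by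
  change tents 1 _ x - cham q (t.xl q) x ≤ _
  linarith [cham_nonneg q (t.xl q) x]

theorem lo_ge_cham (q : ℝ) (t : Tile) (x : ℝ) : cham q (t.xl q) x ≤ (t.sh q).lo x :=
  le_max_left _ _

theorem lo_ge_tents (q : ℝ) (t : Tile) (x : ℝ) :
    tents (t.base q) (t.dents q) x ≤ (t.sh q).lo x :=
  le_max_right _ _

theorem lo_nonneg (q : ℝ) (t : Tile) (x : ℝ) : 0 ≤ (t.sh q).lo x :=
  (cham_nonneg q _ x).trans (lo_ge_cham q t x)

theorem k1 : K1Stmt := by
  intro q t₁ t₂ dx₁ dx₂ dy₁ dy₂ x hq0 hq1 hcol hdx1 hdx2 hdy _ _ _ _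
  obtain ⟨h2, h3, h4, h43, h32, h21⟩ := qpow hq0 hq1
  obtain ⟨a1, a2⟩ := abs_le.1 hdx1
  obtain ⟨b1, b2⟩ := abs_le.1 hdx2
  have hlo := lo_ge_tents q t₂ (x - dx₂)
  have hlo0 := lo_nonneg q t₂ (x - dx₂)
  have hhi := hi_le_tents q t₁ (x - dx₁)
  suffices h : tents 1 (t₁.top.marks.map fun p : ℕ => ((p : ℝ) / 32, 1 + q)) (x - dx₁)
      ≤ 1 + (dy₂ - dy₁) + (t₂.sh q).lo (x - dx₂) by linarith
  rw [tents_le_iff]
  constructor
  · -- the flat part
    rcases sgn_cases t₂ with hs | hs | hs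
    · rw [hs] at hdy
      push_cast at hdy
      linarith
    · have hb : q ^ 3 ≤ (t₂.sh q).lo (x - dx₂) := by
        refine le_trans ?_ (hlo)
        refine le_trans ?_ (base_le_tents _ _ _)
        simp [Tile.base, hs]
      rw [hs] at hdy
      push_cast at hdy
      linarith
    · have hb : q ^ 3 ≤ (t₂.sh q).lo (x - dx₂) := by
        refine le_trans ?_ (hlo)
        refine le_trans ?_ (base_le_tents _ _ _)
        simp [Tile.base, hs]
      rw [hs] at hdy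
      push_cast at hdy
      linarith
  · intro d hd
    rw [List.mem_map] at hd
    obtain ⟨p, hp, rfl⟩ := hd
    rw [hcol] at hp
    simp only
    -- the dent of `p`
    have hdent : ∀ c h : ℝ, (if t₂.sgn = 0 then ((p : ℝ) / 32, q + q ^ 3)
        else if p = 14 then ((p : ℝ) / 32 + t₂.sgn * q ^ 3, q + q ^ 3)
        else ((p : ℝ) / 32, q + 2 * q ^ 3)) = (c, h) →
        h - |x - dx₂ - c| ≤ (t₂.sh q).lo (x - dx₂) := by
      intro c h hch
      refine le_trans ?_ hlo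
      refine mem_le_tents _ _ _ (c, h) ?_
      rw [← hch]
      exact List.mem_map.2 ⟨p, hp, rfl⟩
    set y := x - dx₁ with hy
    have hy2 : x - dx₂ = y - (dx₂ - dx₁) := by rw [hy]; ring
    set D := dx₂ - dx₁ with hD
    have hDabs : |D| ≤ 2 * q ^ 4 := by
      rw [abs_le]
      constructor <;> linarith
    obtain ⟨hD1, hD2⟩ := abs_le.1 hDabs
    rcases sgn_cases t₂ with hs | hs | hs
    · have h5 := hdent (p / 32) (q + q ^ 3) (by rw [if_pos hs])
      rw [hs] at hdy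
      push_cast at hdy
      rw [hy2] at h5
      have h6 : |y - D - (p : ℝ) / 32| ≤ |y - (p : ℝ) / 32| + |D| := by
        have : y - D - (p : ℝ) / 32 = (y - (p : ℝ) / 32) - D := by ring
        rw [this]
        exact abs_sub _ _
      rw [hy2]
      linarith
    · by_cases hp14 : p = 14
      · have h5 := hdent (p / 32 + t₂.sgn * q ^ 3) (q + q ^ 3) (by
          rw [if_neg (by rw [hs]; decide), if_pos hp14])
        rw [hs] at hdy h5
        push_cast at hdy h5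
        rw [hy2] at h5
        have h6 : |y - D - ((p : ℝ) / 32 + 1 * q ^ 3)| ≤ |y - (p : ℝ) / 32| + (q ^ 3 + D) := by
          have : y - D - ((p : ℝ) / 32 + 1 * q ^ 3) = (y - (p : ℝ) / 32) - (q ^ 3 + D) := by ring
          rw [this]
          refine (abs_sub _ _).trans ?_
          rw [abs_of_nonneg (by linarith : 0 ≤ q ^ 3 + D)]
        rw [hy2]
        linarith
      · have h5 := hdent (p / 32) (q + 2 * q ^ 3) (by
          rw [if_neg (by rw [hs]; decide), if_neg hp14])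
        rw [hs] at hdy
        push_cast at hdy
        rw [hy2] at h5
        have h6 : |y - D - (p : ℝ) / 32| ≤ |y - (p : ℝ) / 32| + |D| := by
          have : y - D - (p : ℝ) / 32 = (y - (p : ℝ) / 32) - D := by ring
          rw [this]
          exact abs_sub _ _
        rw [hy2]
        linarith
    · by_cases hp14 : p = 14
      · have h5 := hdent (p / 32 + t₂.sgn * q ^ 3) (q + q ^ 3) (by
          rw [if_neg (by rw [hs]; decide), if_pos hp14])
        rw [hs] at hdy h5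
        push_cast at hdy h5
        rw [hy2] at h5
        have h6 : |y - D - ((p : ℝ) / 32 + -1 * q ^ 3)| ≤ |y - (p : ℝ) / 32| + (q ^ 3 - D) := by
          have : y - D - ((p : ℝ) / 32 + -1 * q ^ 3) = (y - (p : ℝ) / 32) - (-(q ^ 3 - D)) := by
            ring
          rw [this]
          refine (abs_sub _ _).trans ?_
          rw [abs_neg, abs_of_nonneg (by linarith : 0 ≤ q ^ 3 - D)]
        rw [hy2]
        linarith
      · have h5 := hdent (p / 32) (q + 2 * q ^ 3) (by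
          rw [if_neg (by rw [hs]; decide), if_neg hp14])
        rw [hs] at hdy
        push_cast at hdy
        rw [hy2] at h5
        have h6 : |y - D - (p : ℝ) / 32| ≤ |y - (p : ℝ) / 32| + |D| := by
          have : y - D - (p : ℝ) / 32 = (y - (p : ℝ) / 32) - D := by ring
          rw [this]
          exact abs_sub _ _
        rw [hy2]
        linarith

/-- near the left end a top side is flat -/
theorem tents_one_left (q : ℝ) (hq0 : 0 < q) (hq1 : q ≤ 1 / 2 ^ 20) (a : Col) (y : ℝ)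
    (hy : y ≤ 9 / 32) :
    tents 1 (a.marks.map fun p : ℕ => ((p : ℝ) / 32, 1 + q)) y ≤ 1 := by
  rw [tents_le_iff]
  refine ⟨le_rfl, fun d hd => ?_⟩
  rw [List.mem_map] at hd
  obtain ⟨p, hp, rfl⟩ := hd
  have h1 := (marks_ge a p hp).1
  have h2 : (10 : ℝ) ≤ p := by exact_mod_cast h1
  have h3 := neg_abs_le (y - (p : ℝ) / 32)
  simp only
  linarith

/-- near the right end a top side is flat -/
theorem tents_one_right (q : ℝ) (hq0 : 0 < q) (hq1 : q ≤ 1 / 2 ^ 20) (a : Col) (y : ℝ)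
    (hy : 30 / 32 ≤ y) :
    tents 1 (a.marks.map fun p : ℕ => ((p : ℝ) / 32, 1 + q)) y ≤ 1 := by
  rw [tents_le_iff]
  refine ⟨le_rfl, fun d hd => ?_⟩
  rw [List.mem_map] at hd
  obtain ⟨p, hp, rfl⟩ := hd
  have h1 := (marks_ge a p hp).2
  have h2 : (p : ℝ) ≤ 29 := by exact_mod_cast h1
  have h3 := le_abs_self (y - (p : ℝ) / 32)
  simp only
  linarith

theorem xl_nonneg (q : ℝ) (hq : 0 < q) (t : Tile) : 0 ≤ t.xl q := by
  unfold Tile.xl
  split_ifs
  · exact hq.le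
  · exact le_rfl

theorem xr_le (q : ℝ) (hq : 0 < q) (t : Tile) : t.xr q ≤ 1 + q := by
  unfold Tile.xr
  split_ifs
  · exact le_rfl
  · linarith

theorem k2 : K2Stmt := by
  intro q t₁ t₂ dx₁ dx₂ dy₁ dy₂ x hq0 hq1 hdx1 hdx2 hdy1 hdy2 hxl hxr
  obtain ⟨h2, h3, h4, h43, h32, h21⟩ := qpow hq0 hq1
  obtain ⟨a1, a2⟩ := abs_le.1 hdx1
  obtain ⟨b1, b2⟩ := abs_le.1 hdx2
  obtain ⟨c1, c2⟩ := abs_le.1 hdy1
  obtain ⟨d1, d2⟩ := abs_le.1 hdy2
  have hxl1 := xl_nonneg q hq0 t₁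
  have hxr1 := xr_le q hq0 t₁
  have hxl2 := xl_nonneg q hq0 t₂
  have hxr2 := xr_le q hq0 t₂
  constructor
  · intro h5 h6
    have hy : 1 - 2 * q ^ 4 ≤ x - dx₁ := by linarith
    have ht := tents_one_right q hq0 hq1 t₁.top (x - dx₁) (by linarith)
    have hc := cham_right q (t₁.xl q) (x - dx₁)
    have hm : 8 * q ^ 3 - 2 * q ^ 4 ≤ min (8 * q ^ 3) (x - dx₁ - 1 + 8 * q ^ 3) :=
      le_min (by linarith) (by linarith)
    have hhi : (t₁.sh q).hi (x - dx₁) ≤ 1 - (8 * q ^ 3 - 2 * q ^ 4) := by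
      change tents 1 _ (x - dx₁) - cham q (t₁.xl q) (x - dx₁) ≤ _
      linarith
    have hlo := lo_nonneg q t₂ (x - 1 - dx₂)
    linarith
  · intro h5 h6
    have hy : x - dx₁ ≤ 9 / 32 := by linarith
    have ht := tents_one_left q hq0 hq1 t₁.top (x - dx₁) hy
    have hhi := hi_le_tents q t₁ (x - dx₁)
    have hc := cham_right q (t₂.xl q) (x + 1 - dx₂)
    have hm : 8 * q ^ 3 - 2 * q ^ 4 ≤ min (8 * q ^ 3) (x + 1 - dx₂ - 1 + 8 * q ^ 3) :=
      le_min (by linarith) (by linarith)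
    have hlo := lo_ge_cham q t₂ (x + 1 - dx₂)
    linarith

end Pool.Agent.Helper60_Pack
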