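import Pool.Agent.Helper60_Pack.K4

/-!
# PACK module K3, helper60
-/

namespace Pool.Agent.Helper60_Pack

open Pool.Agent.Helper2_Pack

theorem sg_abs (σ : Bool) : |((sg σ : ℤ) : ℝ)| = 1 := by
  cases σ <;> simp [sg]

theorem sg_sq (σ : Bool) : ((sg σ : ℤ) : ℝ) ^ 2 = 1 := by
  cases σ <;> simp [sg]

theorem roof_ge {q : ℝ} (hq : 0 < q) (σ : Bool) (y : ℝ) (hy : |(|y - 20 / 32| - 10 / 32)| ≤ 3 * q ^ 3) :
    q - 3 * q ^ 4 ≤ roof q σ y := by
  have h1 : roof q σ y = q + (sg σ : ℝ) * (q * (|y - 20 / 32| - 10 / 32)) := by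
    unfold roof piv
    ring
  have h2 : |(sg σ : ℝ) * (q * (|y - 20 / 32| - 10 / 32))| ≤ 3 * q ^ 4 := by
    rw [abs_mul, sg_abs, one_mul, abs_mul, abs_of_pos hq]
    calc q * |(|y - 20 / 32| - 10 / 32)| ≤ q * (3 * q ^ 3) := mul_le_mul_of_nonneg_left hy hq.le
      _ = 3 * q ^ 4 := by ring
  have h3 := (abs_le.1 h2).1
  rw [h1]
  linarith only [h3]

/-- the three cases of a port -/
theorem port_cases {q : ℝ} {σ : Bool} {p x y : ℝ} (h : port q σ p x ≤ y) :
    roof q σ x ≤ y ∨ roof q σ (p - 3 * q ^ 3) + 3 * q ^ 3 - (p - x) ≤ y ∨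
      roof q σ (p + 3 * q ^ 3) + 3 * q ^ 3 - (x - p) ≤ y := by
  unfold port at h
  rwa [min_le_iff, min_le_iff] at h

/-- above a line of small slope through the tip of a bump -/
theorem above_line {m n a b : ℝ} (hn : |m| ≤ n) (hn0 : 0 < n) (h : 0 ≤ m * a + n * b) :
    -|a| ≤ b := by
  by_contra hcon
  push Not at hcon
  have h1 : m * a ≤ n * |a| := by
    calc m * a ≤ |m * a| := le_abs_self _
      _ = |m| * |a| := abs_mul _ _
      _ ≤ n * |a| := mul_le_mul_of_nonneg_right hn (abs_nonneg a)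
  have h2 : n * b < n * (-|a|) := mul_lt_mul_of_pos_left hcon hn0
  linarith

theorem spike {q : ℝ} (hq : 0 < q) (hq1 : q ≤ 1 / 2 ^ 20) (σ : Bool)
    {c s : ℝ} (hc : 99 / 100 ≤ c) (hc1 : 1 - c ≤ q ^ 4) (hc2 : c ≤ 1) (hs : |s| ≤ 4 * q ^ 4)
    {x y X Y ζim : ℝ} (hζX : ζim ≤ piv q σ + (1 - piv q σ) * |X| / (2 * q ^ 3))
    (e1 : x - 20 / 32 = c * X - s * Y) (e2 : y - piv q σ = s * X + c * Y)
    (hY : Y = ζim - piv q σ) :
    y ≤ piv q σ + (1 + q ^ 3 - piv q σ) * |x - 20 / 32| / q ^ 3 := by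
  obtain ⟨h2, h3, h4, h43, h32, h21⟩ := qpow hq hq1
  obtain ⟨hp0, hp1⟩ := piv_bds hq σ
  have hS' : 0 ≤ (1 + q ^ 3 - piv q σ) := by linarith only [hq1, h4, h43, hp1]
  suffices h : (y - piv q σ) * q ^ 3 ≤ (1 + q ^ 3 - piv q σ) * |x - 20 / 32| by
    have h5 : y - piv q σ ≤ (1 + q ^ 3 - piv q σ) * |x - 20 / 32| / q ^ 3 := by
      rw [le_div_iff₀ h3]
      exact h
    linarith only [h5]
  have hYX : Y * (2 * q ^ 3) ≤ (1 - piv q σ) * |X| := by
    have h5 : Y ≤ (1 - piv q σ) * |X| / (2 * q ^ 3) := by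
      rw [hY]
      linarith only [hζX]
    rwa [le_div_iff₀ (by positivity)] at h5
  have hsX : s * X ≤ 4 * q ^ 4 * |X| := by
    calc s * X ≤ |s * X| := le_abs_self _
      _ = |s| * |X| := abs_mul _ _
      _ ≤ 4 * q ^ 4 * |X| := mul_le_mul_of_nonneg_right hs (abs_nonneg _)
  rw [e1, e2]
  have habs : |c * X - s * Y| ≥ c * |X| - 4 * q ^ 4 * |Y| := by
    have h5 : |c * X| - |s * Y| ≤ |c * X - s * Y| := abs_sub_abs_le_abs_sub _ _
    rw [abs_mul, abs_mul, abs_of_nonneg (by linarith : 0 ≤ c)] at h5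
    have h6 : |s| * |Y| ≤ 4 * q ^ 4 * |Y| := mul_le_mul_of_nonneg_right hs (abs_nonneg _)
    linarith only [h5, h6]
  by_cases hY0 : 0 ≤ Y
  · rw [abs_of_nonneg hY0] at habs
    -- `4 q⁴ Y ≤ 2 q |X|`
    have h7 : 4 * q ^ 4 * Y ≤ 2 * q * |X| := by
      have : 4 * q ^ 4 * Y = 2 * q * (Y * (2 * q ^ 3)) := by ring
      rw [this]
      have h8 : (1 - piv q σ) * |X| ≤ 1 * |X| :=
        mul_le_mul_of_nonneg_right (by linarith only [hp0]) (abs_nonneg _)
      nlinarith only [hq, hYX, h8]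
    have h8 : (98 / 100) * |X| ≤ |c * X - s * Y| := by
      have h9 : (99 / 100) * |X| ≤ c * |X| := mul_le_mul_of_nonneg_right hc (abs_nonneg _)
      have h10 : 2 * q * |X| ≤ (1 / 100) * |X| :=
        mul_le_mul_of_nonneg_right (by linarith only [hq1]) (abs_nonneg _)
      linarith only [habs, h7, h9, h10]
    have h9 : (s * X + c * Y) * q ^ 3 ≤ 4 * q ^ 4 * |X| * q ^ 3 + (1 - piv q σ) * |X| / 2 := by
      have h10 : c * Y ≤ Y := by nlinarith only [hc2, hY0]
      have h11 : (s * X + c * Y) * q ^ 3 ≤ (4 * q ^ 4 * |X| + Y) * q ^ 3 :=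
        mul_le_mul_of_nonneg_right (by linarith only [hsX, h10]) h3.le
      linarith only [hYX, h11]
    have h10 : (1 + q ^ 3 - piv q σ) * ((98 / 100) * |X|) ≤
        (1 + q ^ 3 - piv q σ) * |c * X - s * Y| := mul_le_mul_of_nonneg_left h8 hS'
    have h11 : 4 * q ^ 4 * |X| * q ^ 3 ≤ q ^ 3 * |X| := by
      have : 4 * q ^ 4 ≤ 1 := by linarith only [hq1, h43, h32, h21]
      have h12 := mul_le_mul_of_nonneg_right this (mul_nonneg (abs_nonneg X) h3.le)
      linarith only [h12]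
    nlinarith only [hYX, h9, h10, h11, hq1, h3, hY0, h7, h43, h32, h21, abs_nonneg X]
  · push Not at hY0
    by_cases hneg : s * X + c * Y ≤ 0
    · have h5 : (s * X + c * Y) * q ^ 3 ≤ 0 := mul_nonpos_of_nonpos_of_nonneg hneg h3.le
      exact h5.trans (mul_nonneg hS' (abs_nonneg _))
    · push Not at hneg
      rw [abs_of_neg hY0] at habs
      -- `-Y ≤ 5 q⁴ |X|`
      have h6 : -Y ≤ 5 * q ^ 4 * |X| := by
        have h7 : c * (-Y) ≤ 4 * q ^ 4 * |X| := by linarith only [hsX, hneg]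
        have h8 : (99 / 100) * (-Y) ≤ c * (-Y) := mul_le_mul_of_nonneg_right hc (by linarith only [hY0])
        have h9 : 0 ≤ q ^ 4 * |X| := mul_nonneg h4.le (abs_nonneg _)
        linarith only [hsX, hY0, hneg, h8]
      have h8 : (98 / 100) * |X| ≤ |c * X - s * Y| := by
        have h9 : (99 / 100) * |X| ≤ c * |X| := mul_le_mul_of_nonneg_right hc (abs_nonneg _)
        have h10 : 4 * q ^ 4 * (-Y) ≤ (1 / 100) * |X| := by
          have h11 : 4 * q ^ 4 * (-Y) ≤ 1 * (-Y) :=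
            mul_le_mul_of_nonneg_right (by linarith) (by linarith only [hY0])
          have h12 : 5 * q ^ 4 * |X| ≤ (1 / 100) * |X| :=
            mul_le_mul_of_nonneg_right (by linarith only [hq1, h43, h32, h21]) (abs_nonneg _)
          linarith only [h6, h11, h12]
        linarith
      have h9 : (s * X + c * Y) * q ^ 3 ≤ 4 * q ^ 4 * |X| * q ^ 3 := by
        refine mul_le_mul_of_nonneg_right ?_ h3.le
        have : c * Y ≤ 0 := mul_nonpos_of_nonneg_of_nonpos (by linarith) hY0.le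
        linarith only [hsX, this]
      have h10 : (1 + q ^ 3 - piv q σ) * ((98 / 100) * |X|) ≤
          (1 + q ^ 3 - piv q σ) * |c * X - s * Y| := mul_le_mul_of_nonneg_left h8 hS'
      have h11 : 4 * q ^ 4 * |X| * q ^ 3 ≤ (1 / 100) * |X| := by
        have h12 : 4 * q ^ 4 * q ^ 3 ≤ 1 / 100 := by nlinarith only [h43, h21, h4]
        have h13 := mul_le_mul_of_nonneg_right h12 (abs_nonneg X)
        linarith only [h13]
      have h12 : (1 / 100) * |X| ≤ (1 + q ^ 3 - piv q σ) * ((98 / 100) * |X|) := by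
        have h13 : (1 : ℝ) / 2 ≤ 1 + q ^ 3 - piv q σ := by linarith only [hq1, h4, h43, hp1]
        nlinarith only [hq1, h4, h43, hp1, abs_nonneg X]
      linarith only [h9, h10, h11, h12]

theorem k3_core {q Y₁ Y₂ : ℝ} {σ : Bool} (hq : 0 < q) (hq1 : q ≤ 1 / 2 ^ 20) (hY1 : |Y₁| ≤ q ^ 4)
    (hY2 : |Y₂| ≤ q ^ 4) {c s : ℝ} (hcs : c ^ 2 + s ^ 2 = 1) (hc : 99 / 100 ≤ c)
    (hc1 : 1 - c ≤ q ^ 4) (hs : |s| ≤ 4 * q ^ 4)
    (hP1 : (-s + sg σ * q * c) * (-(10 / 32)) + (c + sg σ * q * s) * (sg σ * q * (10 / 32) + Y₁) = 0)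
    (hP2 : (-s - sg σ * q * c) * (10 / 32) + (c - sg σ * q * s) * (sg σ * q * (10 / 32) + Y₂) ≤ 0)
    (ζ : ℂ) (hζ : ζ ∈ (Shp.lever σ).reg q) (x y : ℝ)
    (hx : x = c * (ζ.re - 20 / 32) - s * (ζ.im - piv q σ) + 20 / 32)
    (hy : y = s * (ζ.re - 20 / 32) + c * (ζ.im - piv q σ) + piv q σ) :
    -q ^ 3 / 2 ≤ x ∧ x ≤ 1 + q ^ 3 / 2 ∧ q ^ 3 / 2 ≤ y ∧ y ≤ 1 + q ^ 3 / 2 ∧
    Y₁ + tents 0 (((pcol σ).marks.filter (fun p : ℕ => 16 < p)).map
      fun p : ℕ => ((p : ℝ) / 32 - 1 / 2, q)) x ≤ y ∧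
    Y₂ + tents 0 (((pcol σ).marks.filter (fun p : ℕ => p < 16)).map
      fun p : ℕ => ((p : ℝ) / 32 + 1 / 2, q)) x ≤ y ∧
    y ≤ piv q σ + (1 + q ^ 3 - piv q σ) * |x - 20 / 32| / q ^ 3 := by
  obtain ⟨h2, h3, h4, h43, h32, h21⟩ := qpow hq hq1
  obtain ⟨y11, y12⟩ := abs_le.1 hY1
  obtain ⟨y21, y22⟩ := abs_le.1 hY2
  obtain ⟨s1, s2⟩ := abs_le.1 hs
  obtain ⟨hp0, hp1⟩ := piv_bds hq σ
  have hc2 : c ≤ 1 := by nlinarith only [hcs, sq_nonneg s]
  obtain ⟨z1, z2, z3, z4⟩ := hζ
  change 0 ≤ ζ.re at z1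
  change ζ.re ≤ 1 at z2
  change max (max (cham q 0 ζ.re)
      (tents (q ^ 3) (if σ then [] else [(13 / 32, q + 2 * q ^ 3), (26 / 32, q + 2 * q ^ 3)]) ζ.re))
    (max (port q σ (10 / 32) ζ.re) (port q σ (30 / 32) ζ.re)) ≤ ζ.im at z3
  change ζ.im ≤ min (1 - cham q 0 ζ.re)
    (piv q σ + (1 - piv q σ) * |ζ.re - 20 / 32| / (2 * q ^ 3)) at z4
  rw [max_le_iff, max_le_iff, max_le_iff] at z3
  rw [le_min_iff] at z4
  obtain ⟨⟨_, l2⟩, l3, l4⟩ := z3
  obtain ⟨u1, u2⟩ := z4
  have hch := cham_nonneg q 0 ζ.re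
  have l0 : q ^ 3 ≤ ζ.im := (base_le_tents _ _ _).trans l2
  have u0 : ζ.im ≤ 1 := by linarith only [u1, hch]
  set X := ζ.re - 20 / 32 with hX
  set Y := ζ.im - piv q σ with hY
  have hX1 : |X| ≤ 1 := by rw [abs_le]; constructor <;> linarith only [z1, hX, z2]
  have hYa : |Y| ≤ 1 := by rw [abs_le]; constructor <;> linarith
  -- the displacement is small
  have hxz : |x - ζ.re| ≤ 5 * q ^ 4 := by
    have h5 : x - ζ.re = -((1 - c) * X) - s * Y := by rw [hx, hX]; ring
    rw [h5]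
    calc |-((1 - c) * X) - s * Y| ≤ |-((1 - c) * X)| + |s * Y| := abs_sub _ _
      _ = (1 - c) * |X| + |s| * |Y| := by
          rw [abs_neg, abs_mul, abs_mul, abs_of_nonneg (by linarith only [hc2] : 0 ≤ 1 - c)]
      _ ≤ q ^ 4 * 1 + 4 * q ^ 4 * 1 := by
          refine add_le_add ?_ ?_
          · exact mul_le_mul hc1 hX1 (abs_nonneg _) h4.le
          · exact mul_le_mul hs hYa (abs_nonneg _) (by linarith only [h4])
      _ = 5 * q ^ 4 := by ring
  have hyz : |y - ζ.im| ≤ 5 * q ^ 4 := by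
    have h5 : y - ζ.im = s * X - (1 - c) * Y := by rw [hy, hY]; ring
    rw [h5]
    calc |s * X - (1 - c) * Y| ≤ |s * X| + |(1 - c) * Y| := abs_sub _ _
      _ = |s| * |X| + (1 - c) * |Y| := by
          rw [abs_mul, abs_mul, abs_of_nonneg (by linarith only [hc2] : 0 ≤ 1 - c)]
      _ ≤ 4 * q ^ 4 * 1 + q ^ 4 * 1 := by
          refine add_le_add ?_ ?_
          · exact mul_le_mul hs hX1 (abs_nonneg _) (by linarith only [h4])
          · exact mul_le_mul hc1 hYa (abs_nonneg _) h4.le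
      _ = 5 * q ^ 4 := by ring
  obtain ⟨xz1, xz2⟩ := abs_le.1 hxz
  obtain ⟨yz1, yz2⟩ := abs_le.1 hyz
  have hy3 : q ^ 3 / 2 ≤ y := by linarith only [h4, h43, l0, yz1]
  -- loose bumps
  have loose : ∀ (p Y' : ℝ), Y' ≤ q ^ 4 → q + 2 * q ^ 3 - |ζ.re - p| ≤ ζ.im →
      Y' + (q - |x - p|) ≤ y := by
    intro p Y' hY' h
    have h5 : |ζ.re - p| ≤ |x - p| + 5 * q ^ 4 := by
      have : ζ.re - p = (x - p) - (x - ζ.re) := by ring
      rw [this]
      exact (abs_sub _ _).trans (by linarith only [hxz])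
    linarith only [h4, h43, yz1, hY', h, h5]
  -- sides of the ports
  have sides : ∀ (p Y' : ℝ), Y' ≤ q ^ 4 → (p = 10 / 32 ∨ p = 30 / 32) →
      (roof q σ (p - 3 * q ^ 3) + 3 * q ^ 3 - (p - ζ.re) ≤ ζ.im ∨
        roof q σ (p + 3 * q ^ 3) + 3 * q ^ 3 - (ζ.re - p) ≤ ζ.im) → Y' + (q - |x - p|) ≤ y := by
    intro p Y' hY' hp h
    apply loose p Y' hY'
    rcases h with h | h
    · have h5 := roof_ge hq σ (p - 3 * q ^ 3) (by
        rcases hp with rfl | rfl
        · have e1 : |(10 / 32 - 3 * q ^ 3 - 20 / 32 : ℝ)| = 10 / 32 + 3 * q ^ 3 := by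
            rw [abs_of_nonpos (by linarith only [h4, h43])]
            ring
          rw [e1, abs_of_nonneg (by linarith only [h4, h43])]
          linarith
        · have e1 : |(30 / 32 - 3 * q ^ 3 - 20 / 32 : ℝ)| = 10 / 32 - 3 * q ^ 3 := by
            rw [abs_of_nonneg (by linarith only [hq1, h32, h21])]
            ring
          rw [e1, abs_of_nonpos (by linarith only [h4, h43])]
          linarith)
      have h6 := neg_abs_le (ζ.re - p)
      linarith only [h4, h43, h, h5, h6]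
    · have h5 := roof_ge hq σ (p + 3 * q ^ 3) (by
        rcases hp with rfl | rfl
        · have e1 : |(10 / 32 + 3 * q ^ 3 - 20 / 32 : ℝ)| = 10 / 32 - 3 * q ^ 3 := by
            rw [abs_of_nonpos (by linarith only [hq1, h32, h21])]
            ring
          rw [e1, abs_of_nonpos (by linarith only [h4, h43])]
          linarith
        · have e1 : |(30 / 32 + 3 * q ^ 3 - 20 / 32 : ℝ)| = 10 / 32 + 3 * q ^ 3 := by
            rw [abs_of_nonneg (by linarith only [h4, h43])]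
            ring
          rw [e1, abs_of_nonneg (by linarith only [h4, h43])]
          linarith)
      have h6 := le_abs_self (ζ.re - p)
      linarith only [h4, h43, h, h5, h6]
  have hsgq : |(sg σ : ℝ) * q| = q := by rw [abs_mul, sg_abs, one_mul, abs_of_pos hq]
  have hsq : |(sg σ : ℝ) * q * s| ≤ q ^ 4 := by
    rw [abs_mul, hsgq]
    calc q * |s| ≤ q * (4 * q ^ 4) := mul_le_mul_of_nonneg_left hs hq.le
      _ = 4 * q * q ^ 4 := by ring
      _ ≤ q ^ 4 := by nlinarith only [h32]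
  obtain ⟨sq1, sq2⟩ := abs_le.1 hsq
  have hcq : |(sg σ : ℝ) * q * c| ≤ q := by
    rw [abs_mul, hsgq, abs_of_nonneg (by linarith only [hq1, hc1, h43, h32, h21] : 0 ≤ c)]
    nlinarith only [hq, hc2]
  obtain ⟨cq1, cq2⟩ := abs_le.1 hcq
  -- left port
  have hport1 : Y₁ + (q - |x - 10 / 32|) ≤ y := by
    rcases port_cases l3 with h | h
    · -- above the roof
      unfold roof at h
      by_cases hX0 : X ≤ 0
      · rw [abs_of_nonpos hX0] at h
        -- frame inequality `Y + tX ≥ 0`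
        have h5 : 0 ≤ Y + sg σ * q * X := by
          rw [hY]
          linarith only [h]
        have h6 : Y + sg σ * q * X = (-s + sg σ * q * c) * (x - 20 / 32) +
            (c + sg σ * q * s) * (y - piv q σ) := by
          have e1 : x - 20 / 32 = c * X - s * Y := by rw [hx]; ring
          have e2 : y - piv q σ = s * X + c * Y := by rw [hy]; ring
          rw [e1, e2]
          have e3 : (-s + sg σ * q * c) * (c * X - s * Y) + (c + sg σ * q * s) * (s * X + c * Y)
              = (c ^ 2 + s ^ 2) * (Y + sg σ * q * X) := by ring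
          rw [e3, hcs, one_mul]
        have h7 : 0 ≤ (-s + sg σ * q * c) * (x - 10 / 32) +
            (c + sg σ * q * s) * (y - (q + Y₁)) := by
          have e4 : q + Y₁ = piv q σ + (sg σ * q * (10 / 32) + Y₁) := by unfold piv; ring
          rw [e4]
          have e5 : (-s + sg σ * q * c) * (x - 10 / 32) + (c + sg σ * q * s) *
              (y - (piv q σ + (sg σ * q * (10 / 32) + Y₁))) =
              ((-s + sg σ * q * c) * (x - 20 / 32) + (c + sg σ * q * s) * (y - piv q σ)) -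
              ((-s + sg σ * q * c) * (-(10 / 32)) + (c + sg σ * q * s) *
                (sg σ * q * (10 / 32) + Y₁)) := by ring
          rw [e5, hP1, ← h6, sub_zero]
          exact h5
        have h8 := above_line (m := -s + sg σ * q * c) (n := c + sg σ * q * s)
          (a := x - 10 / 32) (b := y - (q + Y₁)) (by rw [abs_le]; constructor <;> linarith only [hq1, hc1, h43, h32, h21, s2, sq1, cq1, s1, cq2])
          (by linarith only [hq1, hc1, h43, h32, h21, sq1]) h7
        linarith only [h8]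
      · push Not at hX0
        have h5 := le_abs_self (x - 10 / 32)
        linarith only [hq1, h4, h43, y12, l0, hX, xz1, yz1, hX0, h5]
    · exact sides (10 / 32) Y₁ y12 (Or.inl rfl) h
  have hport2 : Y₂ + (q - |x - 30 / 32|) ≤ y := by
    rcases port_cases l4 with h | h
    · unfold roof at h
      by_cases hX0 : 0 ≤ X
      · rw [abs_of_nonneg hX0] at h
        have h5 : 0 ≤ Y - sg σ * q * X := by
          rw [hY]
          linarith only [h]
        have h6 : Y - sg σ * q * X = (-s - sg σ * q * c) * (x - 20 / 32) +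
            (c - sg σ * q * s) * (y - piv q σ) := by
          have e1 : x - 20 / 32 = c * X - s * Y := by rw [hx]; ring
          have e2 : y - piv q σ = s * X + c * Y := by rw [hy]; ring
          rw [e1, e2]
          have e3 : (-s - sg σ * q * c) * (c * X - s * Y) + (c - sg σ * q * s) * (s * X + c * Y)
              = (c ^ 2 + s ^ 2) * (Y - sg σ * q * X) := by ring
          rw [e3, hcs, one_mul]
        have h7 : 0 ≤ (-s - sg σ * q * c) * (x - 30 / 32) +
            (c - sg σ * q * s) * (y - (q + Y₂)) := by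
          have e4 : q + Y₂ = piv q σ + (sg σ * q * (10 / 32) + Y₂) := by unfold piv; ring
          rw [e4]
          have e5 : (-s - sg σ * q * c) * (x - 30 / 32) + (c - sg σ * q * s) *
              (y - (piv q σ + (sg σ * q * (10 / 32) + Y₂))) =
              ((-s - sg σ * q * c) * (x - 20 / 32) + (c - sg σ * q * s) * (y - piv q σ)) -
              ((-s - sg σ * q * c) * (10 / 32) + (c - sg σ * q * s) *
                (sg σ * q * (10 / 32) + Y₂)) := by ring
          rw [e5, ← h6]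
          linarith only [hP2, h]
        have h8 := above_line (m := -s - sg σ * q * c) (n := c - sg σ * q * s)
          (a := x - 30 / 32) (b := y - (q + Y₂)) (by rw [abs_le]; constructor <;> linarith only [hq1, hc1, h43, h32, h21, s2, sq2, cq2, s1, cq1])
          (by linarith only [hq1, hc1, h43, h32, h21, sq2]) h7
        linarith only [h8]
      · push Not at hX0
        have h5 := neg_abs_le (x - 30 / 32)
        linarith only [hq1, h4, h43, y22, l0, hX, xz2, yz1, hX0, h5]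
    · exact sides (30 / 32) Y₂ y22 (Or.inr rfl) h
  refine ⟨by linarith only [h4, h43, z1, xz1], by linarith only [h4, h43, z2, xz2], hy3, by linarith only [h4, h43, u1, hch, yz2], ?_, ?_, ?_⟩
  · -- bumps of the left tile
    have h5 : tents 0 (((pcol σ).marks.filter (fun p : ℕ => 16 < p)).map
        fun p : ℕ => ((p : ℝ) / 32 - 1 / 2, q)) x ≤ y - Y₁ := by
      rw [tents_le_iff]
      refine ⟨by linarith only [h4, h43, y12, l0, yz1], fun d hd => ?_⟩
      rw [List.mem_map] at hd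
      obtain ⟨p, hp, rfl⟩ := hd
      rw [List.mem_filter] at hp
      obtain ⟨hp, hp16⟩ := hp
      simp only
      cases σ with
      | true =>
        simp only [pcol, Col.marks, List.mem_cons, List.not_mem_nil, or_false] at hp
        rcases hp with rfl | rfl
        · simp at hp16
        · have e : ((26 : ℕ) : ℝ) / 32 - 1 / 2 = 10 / 32 := by norm_num
          rw [e]
          linarith only [hport1]
      | false =>
        simp only [pcol, Col.marks, List.mem_cons, List.not_mem_nil, or_false] at hp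
        rcases hp with rfl | rfl | rfl | rfl
        · simp at hp16
        · simp at hp16
        · have e : ((26 : ℕ) : ℝ) / 32 - 1 / 2 = 10 / 32 := by norm_num
          rw [e]
          linarith only [hport1]
        · have e : ((29 : ℕ) : ℝ) / 32 - 1 / 2 = 13 / 32 := by norm_num
          rw [e]
          have h6 := loose (13 / 32) Y₁ y12 (by
            refine le_trans ?_ l2
            refine mem_le_tents _ _ _ (13 / 32, q + 2 * q ^ 3) ?_
            simp)
          linarith only [h6]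
    linarith only [h5]
  · have h5 : tents 0 (((pcol σ).marks.filter (fun p : ℕ => p < 16)).map
        fun p : ℕ => ((p : ℝ) / 32 + 1 / 2, q)) x ≤ y - Y₂ := by
      rw [tents_le_iff]
      refine ⟨by linarith only [h4, h43, y22, l0, yz1], fun d hd => ?_⟩
      rw [List.mem_map] at hd
      obtain ⟨p, hp, rfl⟩ := hd
      rw [List.mem_filter] at hp
      obtain ⟨hp, hp16⟩ := hp
      simp only
      cases σ with
      | true =>
        simp only [pcol, Col.marks, List.mem_cons, List.not_mem_nil, or_false] at hp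
        rcases hp with rfl | rfl
        · have e : ((14 : ℕ) : ℝ) / 32 + 1 / 2 = 30 / 32 := by norm_num
          rw [e]
          linarith only [hport2]
        · simp at hp16
      | false =>
        simp only [pcol, Col.marks, List.mem_cons, List.not_mem_nil, or_false] at hp
        rcases hp with rfl | rfl | rfl | rfl
        · have e : ((10 : ℕ) : ℝ) / 32 + 1 / 2 = 26 / 32 := by norm_num
          rw [e]
          have h6 := loose (26 / 32) Y₂ y22 (by
            refine le_trans ?_ l2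
            refine mem_le_tents _ _ _ (26 / 32, q + 2 * q ^ 3) ?_
            simp)
          linarith only [h6]
        · have e : ((14 : ℕ) : ℝ) / 32 + 1 / 2 = 30 / 32 := by norm_num
          rw [e]
          linarith only [hport2]
        · simp at hp16
        · simp at hp16
    linarith only [h5]
  · exact spike hq hq1 σ hc hc1 hc2 hs (hζX := u2) (x := x) (y := y) (X := X) (Y := Y)
      (by rw [hx]; ring) (by rw [hy]; ring) hY

theorem k3 : K3Stmt := by
  intro q Y₁ Y₂ σ hq hq1 hY1 hY2 hineq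
  obtain ⟨h2, h3, h4, h43, h32, h21⟩ := qpow hq hq1
  obtain ⟨y11, y12⟩ := abs_le.1 hY1
  obtain ⟨y21, y22⟩ := abs_le.1 hY2
  set t : ℝ := sg σ * q with ht
  have ht2 : t ^ 2 = q ^ 2 := by rw [ht, mul_pow, sg_sq, one_mul]
  have htabs : |t| = q := by rw [ht, abs_mul, sg_abs, one_mul, abs_of_pos hq]
  set A : ℝ := 10 / 32 * (1 + q ^ 2) + t * Y₁ with hA
  have htY : |t * Y₁| ≤ q ^ 4 := by
    rw [abs_mul, htabs]
    calc q * |Y₁| ≤ 1 * |Y₁| := mul_le_mul_of_nonneg_right (by linarith only [hq1]) (abs_nonneg _)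
      _ ≤ q ^ 4 := by rw [one_mul]; exact hY1
  obtain ⟨tY1, tY2⟩ := abs_le.1 htY
  have hA1 : 30 / 100 ≤ A := by rw [hA]; linarith only [h4, h43, h32, tY1]
  set ρ : ℝ := Real.sqrt (A ^ 2 + Y₁ ^ 2) with hρ
  have hρ2 : ρ ^ 2 = A ^ 2 + Y₁ ^ 2 := Real.sq_sqrt (by positivity)
  have hρA : A ≤ ρ := by
    rw [hρ]
    exact Real.le_sqrt_of_sq_le (by linarith only [sq_nonneg Y₁])
  have hρpos : 0 < ρ := by linarith only [h4, h43, h32, hA, tY1, hρA]
  set c : ℝ := A / ρ with hc
  set s : ℝ := -Y₁ / ρ with hs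
  have hcs : c ^ 2 + s ^ 2 = 1 := by
    rw [hc, hs, div_pow, div_pow, ← add_div, hρ2]
    rw [neg_sq, div_self]
    rw [← hρ2]
    positivity
  have hsabs : |s| ≤ 4 * q ^ 4 := by
    rw [hs, abs_div, abs_neg, abs_of_pos hρpos, div_le_iff₀ hρpos]
    nlinarith only [hY1, h43, h4, hA, tY1, hρA]
  have hcpos : 0 < c := div_pos (by linarith only [h4, h43, h32, hA, tY1]) hρpos
  have hc1 : c ≤ 1 := by
    rw [hc, div_le_one hρpos]
    exact hρA
  have hs2 : s ^ 2 ≤ q ^ 4 := by
    have h5 : s ^ 2 = |s| ^ 2 := (sq_abs s).symm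
    rw [h5]
    have h6 : |s| ^ 2 ≤ (4 * q ^ 4) ^ 2 := pow_le_pow_left₀ (abs_nonneg _) hsabs 2
    have h7 : (4 * q ^ 4) ^ 2 = 16 * q ^ 4 * q ^ 4 := by ring
    have h8 : 16 * q ^ 4 * q ^ 4 ≤ 1 * q ^ 4 := mul_le_mul_of_nonneg_right (by linarith only [hq1, h43, h32, h21]) h4.le
    linarith only [h6, h8]
  have hc1' : 1 - c ≤ q ^ 4 := by nlinarith only [hcs, hs2, hcpos]
  have hc99 : 99 / 100 ≤ c := by linarith only [hq1, h43, h32, h21, hc1']
  -- the two tips
  have hP1 : (-s + t * c) * (-(10 / 32)) + (c + t * s) * (t * (10 / 32) + Y₁) = 0 := by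
    have h5 : (-s + t * c) * (-(10 / 32)) + (c + t * s) * (t * (10 / 32) + Y₁) =
        (Y₁ * (A - 10 / 32 - t * (t * (10 / 32) + Y₁))) / ρ := by
      rw [hc, hs]
      field_simp
      ring
    rw [h5]
    have h6 : A - 10 / 32 - t * (t * (10 / 32) + Y₁) = 0 := by
      rw [hA]
      have : t * (t * (10 / 32) + Y₁) = t ^ 2 * (10 / 32) + t * Y₁ := by ring
      rw [this, ht2]
      ring
    rw [h6, mul_zero, zero_div]
  have hP2 : (-s - t * c) * (10 / 32) + (c - t * s) * (t * (10 / 32) + Y₂) ≤ 0 := by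
    have h5 : (-s - t * c) * (10 / 32) + (c - t * s) * (t * (10 / 32) + Y₂) =
        (Y₁ * (10 / 32 + t ^ 2 * (10 / 32) + t * Y₂) + A * Y₂) / ρ := by
      rw [hc, hs]
      field_simp
      ring
    rw [h5]
    refine div_nonpos_of_nonpos_of_nonneg ?_ hρpos.le
    rw [ht2, hA]
    have h6 : 10 / 32 * (1 + q ^ 2) * (Y₁ + Y₂) + 2 * t * (Y₁ * Y₂) ≤ 0 := by
      have : 2 * t * (Y₁ * Y₂) = 2 * sg σ * q * (Y₁ * Y₂) := by rw [ht]; ring
      rw [this]
      exact hineq
    linarith only [hineq]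
  have hunit : ‖(⟨c, s⟩ : ℂ)‖ = 1 := by
    have h5 : ‖(⟨c, s⟩ : ℂ)‖ ^ 2 = 1 := by
      rw [Complex.sq_norm, Complex.normSq_apply]
      linarith only [hcs]
    have h6 := norm_nonneg (⟨c, s⟩ : ℂ)
    nlinarith only [h5, h6]
  refine ⟨⟨⟨c, s⟩, (⟨20 / 32, piv q σ⟩ : ℂ) - ⟨c, s⟩ * ⟨20 / 32, piv q σ⟩, hunit⟩, ?_⟩
  rintro z ⟨ζ, hζ, rfl⟩
  refine k3_core hq hq1 hY1 hY2 hcs hc99 hc1' hsabs hP1 hP2 ζ hζ _ _ ?_ ?_
  · simp only [Motion.app, Complex.add_re, Complex.sub_re, Complex.mul_re]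
    ring
  · simp only [Motion.app, Complex.add_im, Complex.sub_im, Complex.mul_im]
    ring

end Pool.Agent.Helper60_Pack
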