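import Pool.Agent.Helper60_Pack.K12

/-!
# PACK module K4, helper60
-/

namespace Pool.Agent.Helper60_Pack

open Pool.Agent.Helper2_Pack

theorem small_le {q : ℝ} {G : Layout} (h : Small q G) : 0 < q ∧ q ≤ 1 / 2 ^ 20 := by
  refine ⟨h.pos, ?_⟩
  have h1 : (2 : ℝ) ^ 20 ≤ 2 ^ (8 * G.K + 60) := pow_le_pow_right₀ (by norm_num) (by omega)
  have h2 := h.small
  rw [le_div_iff₀ (by positivity)]
  exact (mul_le_mul_of_nonneg_left h1 h.pos.le).trans h2

theorem marks_split (a : Col) : ∀ p ∈ a.marks, (10 ≤ p ∧ p ≤ 14) ∨ (18 ≤ p ∧ p ≤ 29) := by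
  cases a <;> simp [Col.marks]

theorem tents_le_oneq (q : ℝ) (hq : 0 < q) (a : Col) (y : ℝ) :
    tents 1 (a.marks.map fun p : ℕ => ((p : ℝ) / 32, 1 + q)) y ≤ 1 + q := by
  rw [tents_le_iff]
  refine ⟨by linarith, fun d hd => ?_⟩
  rw [List.mem_map] at hd
  obtain ⟨p, hp, rfl⟩ := hd
  simp only
  linarith [abs_nonneg (y - (p : ℝ) / 32)]

theorem locFloor_le (q : ℝ) (hq : 0 < q) (a : Col) (y : ℝ) : locFloor q a y ≤ q := by
  unfold locFloor bumps
  rw [tents_le_iff]
  refine ⟨hq.le, fun d hd => ?_⟩
  rw [List.mem_map] at hd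
  obtain ⟨p, hp, rfl⟩ := hd
  simp only
  linarith [abs_nonneg (y - (p : ℝ) / 32)]

theorem locFloor_left (q : ℝ) (hq : 0 < q) (hq1 : q ≤ 1 / 2 ^ 20) (a : Col) (y : ℝ)
    (hy : y ≤ 9 / 32) : locFloor q a y ≤ 0 := by
  unfold locFloor bumps
  rw [tents_le_iff]
  refine ⟨le_rfl, fun d hd => ?_⟩
  rw [List.mem_map] at hd
  obtain ⟨p, hp, rfl⟩ := hd
  have h2 : (10 : ℝ) ≤ p := by exact_mod_cast (marks_ge a p hp).1
  have h3 := neg_abs_le (y - (p : ℝ) / 32)
  simp only
  linarith

theorem locFloor_le_lo (q : ℝ) (hq : 0 < q) (t : Tile) (hs : t.sgn = 0) (y : ℝ) :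
    locFloor q t.bot y ≤ (t.sh q).lo y := by
  unfold locFloor bumps
  rw [tents_le_iff]
  refine ⟨lo_nonneg q t y, fun d hd => ?_⟩
  rw [List.mem_map] at hd
  obtain ⟨p, hp, rfl⟩ := hd
  simp only
  have h1 : q + q ^ 3 - |y - (p : ℝ) / 32| ≤ (t.sh q).lo y := by
    refine le_trans ?_ (lo_ge_tents q t y)
    refine mem_le_tents _ _ _ ((p : ℝ) / 32, q + q ^ 3) ?_
    refine List.mem_map.2 ⟨p, hp, ?_⟩
    rw [if_pos hs]
  have h2 : 0 < q ^ 3 := by positivity
  linarith

theorem div_ge_one {a q : ℝ} (hq : 0 < q) (hq1 : q ≤ 1 / 2 ^ 20) (ha : 1 / 32 ≤ a) :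
    1 ≤ a / q ^ 3 := by
  obtain ⟨h2, h3, h4, h43, h32, h21⟩ := qpow hq hq1
  rw [le_div_iff₀ h3]
  linarith

theorem piv_bds {q : ℝ} (hq : 0 < q) (σ : Bool) : 0 ≤ piv q σ ∧ piv q σ ≤ 2 * q := by
  cases σ <;> simp only [piv, sg] <;> push_cast <;> constructor <;> linarith

theorem locCeil_ge {q : ℝ} (hq : 0 < q) {G : Layout} (hG : G.OK) (c : ℕ) (hc : c < G.M) (y : ℝ)
    (hy0 : 0 ≤ y) (hy1 : y ≤ 1) : -q ^ 4 ≤ locCeil q (G.top c) y := by
  have h3 : 0 < q ^ 3 := by positivity
  have h4 : 0 < q ^ 4 := by positivity
  cases htop : G.top c with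
  | flat a o =>
    obtain ⟨-, ho⟩ := hG.flat c a o hc htop
    unfold locCeil
    refine le_trans ?_ (le_max_left _ _)
    have hm0 : 0 ≤ min 1 (min (y / (4 * q ^ 3)) ((1 - y) / (4 * q ^ 3))) :=
      le_min zero_le_one (le_min (by positivity) (div_nonneg (by linarith) (by positivity)))
    have hm1 : min 1 (min (y / (4 * q ^ 3)) ((1 - y) / (4 * q ^ 3))) ≤ 1 := min_le_left _ _
    generalize min 1 (min (y / (4 * q ^ 3)) ((1 - y) / (4 * q ^ 3))) = μ at hm0 hm1
    rcases ho with rfl | rfl | rfl
    · push_cast
      nlinarith only [h4, hm1]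
    · push_cast
      nlinarith
    · push_cast
      nlinarith
  | portL σ =>
    unfold locCeil
    refine le_trans ?_ (le_max_left _ _)
    refine le_trans ?_ (le_max_left _ _)
    have : 0 ≤ q ^ 3 * min 1 (y / (4 * q ^ 3)) :=
      mul_nonneg h3.le (le_min zero_le_one (by positivity))
    linarith
  | portR σ =>
    unfold locCeil
    refine le_trans ?_ (le_max_left _ _)
    refine le_trans ?_ (le_max_left _ _)
    have : 0 ≤ q ^ 3 * min 1 ((1 - y) / (4 * q ^ 3)) :=
      mul_nonneg h3.le (le_min zero_le_one (div_nonneg (by linarith) (by positivity)))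
    linarith

theorem ceil_same {q : ℝ} (hq : 0 < q) (hq1 : q ≤ 1 / 2 ^ 20) {G : Layout} (hG : G.OK)
    {x : ℕ → ℝ} (hx : Sol q G x) (c : ℕ) (hc : c < G.M) (t : Tile) (ht : t.top = (G.top c).col)
    (y : ℝ) (hy0 : t.xl q ≤ y) (hy1 : y ≤ 1) (hN : 0 < G.N) :
    (t.sh q).hi y + G.disp x c (G.N - 1) ≤ 1 + locCeil q (G.top c) y := by
  obtain ⟨h2, h3, h4, h43, h32, h21⟩ := qpow hq hq1
  have hxl := xl_nonneg q hq t
  have hy00 : 0 ≤ y := hxl.trans hy0
  set d := G.disp x c (G.N - 1) with hd
  have hd3 : |d| ≤ 3 * q ^ 4 := hx.col c (G.N - 1) hc (by omega)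
  obtain ⟨hd3a, hd3b⟩ := abs_le.1 hd3
  have hcl := cham_left q (t.xl q) y
  have hcr := cham_right q (t.xl q) y
  have hc0 := cham_nonneg q (t.xl q) y
  have hhi : (t.sh q).hi y = tents 1 (t.top.marks.map fun p : ℕ => ((p : ℝ) / 32, 1 + q)) y
      - cham q (t.xl q) y := rfl
  rw [hhi]
  generalize cham q (t.xl q) y = ch at hcl hcr hc0
  suffices h : tents 1 (t.top.marks.map fun p : ℕ => ((p : ℝ) / 32, 1 + q)) y ≤
      1 + locCeil q (G.top c) y - d + ch by linarith only [h]
  rw [tents_le_iff, ht]
  have hcr2 : 1 - 4 * q ^ 3 < y → 4 * q ^ 3 ≤ ch := by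
    intro h
    refine le_trans (le_min ?_ ?_) hcr <;> linarith
  cases htop : G.top c with
  | flat a o =>
    obtain ⟨-, ho⟩ := hG.flat c a o hc htop
    have hdo : d ≤ o * q ^ 4 := hx.ceil c a o hc htop
    have ho1 : -q ^ 4 ≤ (o : ℝ) * q ^ 4 ∧ (o : ℝ) * q ^ 4 ≤ q ^ 4 := by
      rcases ho with rfl | rfl | rfl <;> push_cast <;> constructor <;> linarith only [h4]
    constructor
    · by_cases ha : y < 4 * q ^ 3
      · have hm0 : 0 ≤ min 1 (min (y / (4 * q ^ 3)) ((1 - y) / (4 * q ^ 3))) :=
          le_min zero_le_one (le_min (by positivity) (div_nonneg (by linarith only [hq1, h32, h21, ha]) (by positivity)))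
        have hlc : -q ^ 4 ≤ locCeil q (Top.flat a o) y := by
          have := locCeil_ge hq hG c hc y hy00 hy1
          rwa [htop] at this
        linarith only [h4, h43, hxl, hd3b, hcl, ha, hlc]
      · by_cases hb : 1 - 4 * q ^ 3 < y
        · have h5 := hcr2 hb
          have hlc : -q ^ 4 ≤ locCeil q (Top.flat a o) y := by
            have := locCeil_ge hq hG c hc y hy00 hy1
            rwa [htop] at this
          linarith only [h4, h43, hd3b, h5, hlc]
        · push Not at ha hb
          have hm : min 1 (min (y / (4 * q ^ 3)) ((1 - y) / (4 * q ^ 3))) = 1 := by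
            refine min_eq_left (le_min ?_ ?_)
            · rw [le_div_iff₀ (by positivity)]
              linarith
            · rw [le_div_iff₀ (by positivity)]
              linarith
          have hlc : (o : ℝ) * q ^ 4 ≤ locCeil q (Top.flat a o) y := by
            unfold locCeil
            refine le_trans ?_ (le_max_left _ _)
            rw [hm, mul_one]
          linarith only [hc0, hdo, hlc]
    · intro e he
      rw [List.mem_map] at he
      obtain ⟨p, hp, rfl⟩ := he
      simp only
      have hlc : ((o : ℝ) * q ^ 4 + q + q ^ 3) - |y - (p : ℝ) / 32| ≤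
          locCeil q (Top.flat a o) y := by
        unfold locCeil
        refine le_trans ?_ (le_max_right _ _)
        exact mem_le_tents _ _ _ ((p : ℝ) / 32, (o : ℝ) * q ^ 4 + q + q ^ 3)
          (List.mem_map.2 ⟨p, hp, rfl⟩)
      linarith only [h4, h43, hc0, hdo, hlc]
  | portL σ =>
    have hdl : |d| ≤ q ^ 4 := (hx.lever c σ hc htop).1
    obtain ⟨hd1, hd2⟩ := abs_le.1 hdl
    have hl0 : q ^ 3 * min 1 (y / (4 * q ^ 3)) ≤ locCeil q (Top.portL σ) y := by
      unfold locCeil
      exact (le_max_left _ _).trans (le_max_left _ _)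
    have hl00 : 0 ≤ locCeil q (Top.portL σ) y :=
      le_trans (mul_nonneg h3.le (le_min zero_le_one (by positivity))) hl0
    constructor
    · by_cases ha : y < 4 * q ^ 3
      · linarith only [h4, h43, hxl, hd3b, hcl, hl00, ha]
      · push Not at ha
        have hm : min 1 (y / (4 * q ^ 3)) = 1 := by
          refine min_eq_left ?_
          rw [le_div_iff₀ (by positivity)]
          linarith only [ha]
        rw [hm, mul_one] at hl0
        linarith only [h4, h43, hd3b, hc0, hl0]
    · intro e he
      rw [List.mem_map] at he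
      obtain ⟨p, hp, rfl⟩ := he
      simp only
      rcases marks_split _ p hp with ⟨hp1, hp2⟩ | ⟨hp1, hp2⟩
      · have hlc : (q + 2 * q ^ 3) - |y - (p : ℝ) / 32| ≤ locCeil q (Top.portL σ) y := by
          unfold locCeil
          refine le_trans ?_ (le_max_left _ _)
          refine le_trans ?_ (le_max_right _ _)
          refine mem_le_tents _ _ _ ((p : ℝ) / 32, q + 2 * q ^ 3)
            (List.mem_map.2 ⟨p, List.mem_filter.2 ⟨hp, ?_⟩, rfl⟩)
          simp
          omega
        linarith only [h4, h43, hd3b, hc0, hlc]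
      · have h2p : (18 : ℝ) ≤ p := by exact_mod_cast hp1
        by_cases hy : y ≤ 17 / 32
        · have h5 := neg_abs_le (y - (p : ℝ) / 32)
          linarith
        · push Not at hy
          have hlc : 1 ≤ locCeil q (Top.portL σ) y := by
            unfold locCeil
            refine le_trans ?_ (le_max_right _ _)
            refine le_min (by linarith) ?_
            have := div_ge_one (a := y - 1 / 2 + 2 * q ^ 3) hq hq1 (by linarith only [h4, h43, hy])
            linarith only [h4, h43, this]
          linarith [abs_nonneg (y - (p : ℝ) / 32)]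
  | portR σ =>
    obtain ⟨hc0', hc1'⟩ := hG.portR c σ hc htop
    have hdl : |d| ≤ q ^ 4 := by
      have := (hx.lever (c - 1) σ (by omega) hc1').2.1
      rwa [Nat.sub_add_cancel hc0'] at this
    obtain ⟨hd1, hd2⟩ := abs_le.1 hdl
    have hl0 : q ^ 3 * min 1 ((1 - y) / (4 * q ^ 3)) ≤ locCeil q (Top.portR σ) y := by
      unfold locCeil
      exact (le_max_left _ _).trans (le_max_left _ _)
    have hl00 : 0 ≤ locCeil q (Top.portR σ) y :=
      le_trans (mul_nonneg h3.le (le_min zero_le_one (div_nonneg (by linarith only [hy1]) (by positivity)))) hl0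
    constructor
    · by_cases hb : 1 - 4 * q ^ 3 < y
      · have h5 := hcr2 hb
        linarith only [h4, h43, hd3b, hl00, h5]
      · push Not at hb
        have hm : min 1 ((1 - y) / (4 * q ^ 3)) = 1 := by
          refine min_eq_left ?_
          rw [le_div_iff₀ (by positivity)]
          linarith only [hb]
        rw [hm, mul_one] at hl0
        linarith only [h4, h43, hd3b, hc0, hl0]
    · intro e he
      rw [List.mem_map] at he
      obtain ⟨p, hp, rfl⟩ := he
      simp only
      rcases marks_split _ p hp with ⟨hp1, hp2⟩ | ⟨hp1, hp2⟩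
      · have h2p : (10 : ℝ) ≤ p := by exact_mod_cast hp1
        have h2p' : (p : ℝ) ≤ 14 := by exact_mod_cast hp2
        by_cases hy : 15 / 32 ≤ y
        · have h5 := le_abs_self (y - (p : ℝ) / 32)
          linarith only [hq1, h43, h32, h21, hc0, hd2, hl00, h2p', hy, h5]
        · push Not at hy
          by_cases hy' : y ≤ 9 / 32
          · have h5 := neg_abs_le (y - (p : ℝ) / 32)
            linarith only [hq1, h43, h32, h21, hd3b, hc0, hl00, h2p, hy', h5]
          · push Not at hy'
            obtain ⟨hp0, hp1'⟩ := piv_bds hq σ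
            have hlc : 1 ≤ locCeil q (Top.portR σ) y := by
              unfold locCeil
              refine le_trans ?_ (le_max_right _ _)
              refine le_min (le_min (by linarith only [h4, h43]) ?_) ?_
              · have := div_ge_one (a := 1 / 2 + 2 * q ^ 3 - y) hq hq1 (by linarith only [h4, h43, hy])
                linarith only [h4, h43, this]
              · have habs : 5 / 32 ≤ |y - 4 / 32| := by
                  have := le_abs_self (y - 4 / 32)
                  linarith only [hy', this]
                have h6 : 1 / 32 ≤ (1 + q ^ 3 - piv q σ) * |y - 4 / 32| := by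
                  have h7 : (1 : ℝ) / 2 ≤ 1 + q ^ 3 - piv q σ := by linarith only [hq1, h4, h43, hp1']
                  nlinarith only [hq1, hp1', habs, h4, h43]
                have := div_ge_one hq hq1 h6
                linarith only [hp0, this]
            linarith only [hq1, h4, h43, hxl, hd3b, hcl, hy, hlc, abs_nonneg (y - (p : ℝ) / 32)]
      · have hlc : (q + 2 * q ^ 3) - |y - (p : ℝ) / 32| ≤ locCeil q (Top.portR σ) y := by
          unfold locCeil
          refine le_trans ?_ (le_max_left _ _)
          refine le_trans ?_ (le_max_right _ _)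
          refine mem_le_tents _ _ _ ((p : ℝ) / 32, q + 2 * q ^ 3)
            (List.mem_map.2 ⟨p, List.mem_filter.2 ⟨hp, ?_⟩, rfl⟩)
          simp
          omega
        linarith only [h4, h43, hd3b, hc0, hlc]

theorem k4 (hS4 : S4Stmt) : K4Stmt := by
  intro q G x hG hsm hx c r hc hr z hz
  obtain ⟨hq, hq1⟩ := small_le hsm
  obtain ⟨h2, h3, h4, h43, h32, h21⟩ := qpow hq hq1
  obtain ⟨-, -, -, hmid, -, hcol⟩ := hS4 q G hG hsm
  obtain ⟨hz1, hz2, hz3, hz4⟩ := hz
  change (G.ty c r).xl q ≤ z.re at hz1
  change z.re ≤ (G.ty c r).xr q at hz2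
  change ((G.ty c r).sh q).lo z.re ≤ z.im at hz3
  change z.im ≤ ((G.ty c r).sh q).hi z.re at hz4
  have hxl := xl_nonneg q hq (G.ty c r)
  have hxr := xr_le q hq (G.ty c r)
  have hzre0 : 0 ≤ z.re := hxl.trans hz1
  have hzre1 : z.re ≤ 1 + q := hz2.trans hxr
  have hxr' := abs_le.1 (hx.row r)
  have hdisp := abs_le.1 (hx.col c r hc hr)
  set d := G.disp x c r with hd
  have hzim0 : 0 ≤ z.im := (lo_nonneg q _ _).trans hz3
  have hzim1 : z.im ≤ 1 + q := hz4.trans ((hi_le_tents q _ _).trans (tents_le_oneq q hq _ _))
  have hcM : (c : ℝ) + 1 ≤ G.M := by exact_mod_cast hc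
  have hrN : (r : ℝ) + 1 ≤ G.N := by exact_mod_cast hr
  have hc0 : (0 : ℝ) ≤ c := Nat.cast_nonneg c
  have hr0 : (0 : ℝ) ≤ r := Nat.cast_nonneg r
  set w : ℂ := z + ⟨c + x r, r + d⟩ with hw
  have hwre : w.re = z.re + (c + x r) := rfl
  have hwim : w.im = z.im + (r + d) := rfl
  by_cases hneg : w.re < 0
  · -- left recess
    right
    have hc00 : c = 0 := by
      by_contra h
      have : (1 : ℝ) ≤ c := by exact_mod_cast Nat.one_le_iff_ne_zero.2 h
      linarith
    subst hc00
    push_cast at hwre
    have hxneg : x r < 0 := by linarith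
    have hodd : r % 2 = 1 := by
      by_contra h
      have : x r = 0 := hx.even r (by omega)
      linarith
    have hch := cham_left q ((G.ty 0 r).xl q) z.re
    have hlo := lo_ge_cham q (G.ty 0 r) z.re
    have htt := tents_one_left q hq hq1 (G.ty 0 r).top z.re (by linarith)
    have hhi : ((G.ty 0 r).sh q).hi z.re = tents 1 ((G.ty 0 r).top.marks.map
      fun p : ℕ => ((p : ℝ) / 32, 1 + q)) z.re - cham q ((G.ty 0 r).xl q) z.re := rfl
    refine ⟨Or.inl ⟨by linarith only [hzre0, hxr', hwre], hneg.le⟩, r, hr, hodd, ?_, ?_⟩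
    · rw [hwim]
      linarith only [h43, hxr', hz3, hxl, hdisp, hneg, hwre, hch, hlo]
    · rw [hwim]
      linarith only [h43, hxr', hz4, hxl, hdisp, hneg, hwre, hch, htt, hhi]
  · push Not at hneg
    by_cases hpos : (G.M : ℝ) < w.re
    · -- right recess
      right
      have hcM1 : c = G.M - 1 := by
        by_contra h
        have h5 : c + 2 ≤ G.M := by omega
        have : (c : ℝ) + 2 ≤ G.M := by exact_mod_cast h5
        linarith
      have hwide : (G.ty c r).wide = false := by
        rw [hcM1]
        exact hG.fits.right r hr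
      have hxr1 : (G.ty c r).xr q = 1 := by
        unfold Tile.xr
        rw [hwide]
        simp
      rw [hxr1] at hz2
      have hMc : (G.M : ℝ) = c + 1 := by
        have : G.M = c + 1 := by omega
        rw [this]
        push_cast
        ring
      have hxpos : 0 < x r := by linarith only [hz2, hcM, hwre, hpos]
      have hodd : r % 2 = 1 := by
        by_contra h
        have : x r = 0 := hx.even r (by omega)
        linarith only [hz2, hcM, hwre, hpos, this]
      have hch := cham_right q ((G.ty c r).xl q) z.re
      have hm : 8 * q ^ 3 - q ^ 4 ≤ min (8 * q ^ 3) (z.re - 1 + 8 * q ^ 3) :=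
        le_min (by linarith only [h4]) (by linarith only [hxr', hcM, hwre, hpos])
      have hlo := lo_ge_cham q (G.ty c r) z.re
      have htt := tents_one_right q hq hq1 (G.ty c r).top z.re (by linarith only [hq1, h43, h32, h21, hxr', hcM, hwre, hpos])
      have hhi : ((G.ty c r).sh q).hi z.re = tents 1 ((G.ty c r).top.marks.map
        fun p : ℕ => ((p : ℝ) / 32, 1 + q)) z.re - cham q ((G.ty c r).xl q) z.re := rfl
      refine ⟨Or.inr ⟨hpos.le, by linarith only [hz2, hxr', hcM, hwre]⟩, r, hr, hodd, ?_, ?_⟩
      · rw [hwim]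
        linarith only [h43, hz3, hdisp, hch, hm, hlo]
      · rw [hwim]
        linarith only [h43, hz4, hdisp, hch, hm, htt, hhi]
    · push Not at hpos
      by_cases hrow : 1 ≤ r ∧ r + 2 ≤ G.N
      · obtain ⟨hr1, hr2⟩ := hrow
        have hr1' : (1 : ℝ) ≤ r := by exact_mod_cast hr1
        have hr2' : (r : ℝ) + 2 ≤ G.N := by exact_mod_cast hr2
        refine hmid w hneg hpos ?_ ?_
        · rw [hwim]
          linarith
        · rw [hwim]
          linarith
      · -- first or last row
        have hNodd : G.N = 2 * G.n + 1 := rfl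
        have heven : r % 2 = 0 := by omega
        have hx0 : x r = 0 := hx.even r heven
        have hs0 : (G.ty c r).sgn = 0 := by
          by_contra h
          have := hG.odd c r hc hr h
          omega
        rw [hx0, add_zero] at hwre
        -- the column
        by_cases hz1' : z.re ≤ 1
        · refine hcol w c hc (by linarith only [hz1, hxl, hwre]) (by linarith) ?_ ?_
          · have hy : w.re - c = z.re := by rw [hwre]; ring
            rw [hy]
            by_cases hr00 : r = 0
            · subst hr00
              have hd0 : d = 0 := by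
                rw [hd, Layout.disp]
                simp [hs0]
              rw [hwim, hd0]
              push_cast
              have := locFloor_le_lo q hq (G.ty c 0) hs0 z.re
              linarith only [hz3, this]
            · have hr1' : (1 : ℝ) ≤ r := by exact_mod_cast Nat.one_le_iff_ne_zero.2 hr00
              have := locFloor_le q hq (G.ty c 0).bot z.re
              rw [hwim]
              linarith only [hq1, h43, h32, h21, hdisp, hzim0, hr1', this]
          · have hy : w.re - c = z.re := by rw [hwre]; ring
            rw [hy]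
            by_cases hrN' : r = G.N - 1
            · have hceil := ceil_same hq hq1 hG hx c hc (G.ty c r) (by
                rw [hrN']
                exact hG.fits.ceil c hc) z.re hz1 hz1' (by omega)
              rw [← hrN'] at hceil
              have hN' : (G.N : ℝ) = r + 1 := by
                have : G.N = r + 1 := by omega
                rw [this]
                push_cast
                ring
              rw [hwim, hN']
              linarith only [hz4, hceil]
            · have hr2' : (r : ℝ) + 2 ≤ G.N := by
                have : r + 2 ≤ G.N := by omega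
                exact_mod_cast this
              have := locCeil_ge hq hG c hc z.re hzre0 hz1'
              rw [hwim]
              linarith
        · push Not at hz1'
          have hcM2 : c + 1 < G.M := by
            by_contra h
            have h5 : G.M = c + 1 := by omega
            have : (G.M : ℝ) = c + 1 := by
              rw [h5]
              push_cast
              ring
            linarith only [hwre, hpos, hz1', this]
          have hy : w.re - (c + 1 : ℕ) = z.re - 1 := by
            rw [hwre]
            push_cast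
            ring
          have hch := cham_right q ((G.ty c r).xl q) z.re
          have hm : 8 * q ^ 3 ≤ min (8 * q ^ 3) (z.re - 1 + 8 * q ^ 3) :=
            le_min (by linarith) (by linarith only [hz1'])
          have htt := tents_one_right q hq hq1 (G.ty c r).top z.re (by linarith only [hz1'])
          have hhi : ((G.ty c r).sh q).hi z.re = tents 1 ((G.ty c r).top.marks.map
            fun p : ℕ => ((p : ℝ) / 32, 1 + q)) z.re - cham q ((G.ty c r).xl q) z.re := rfl
          refine hcol w (c + 1) hcM2 (by push_cast; linarith only [hwre, hz1']) (by push_cast; linarith only [hq1, hz2, hxr, hwre]) ?_ ?_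
          · rw [hy]
            by_cases hr00 : r = 0
            · subst hr00
              have hd0 : d = 0 := by
                rw [hd, Layout.disp]
                simp [hs0]
              rw [hwim, hd0]
              push_cast
              have := locFloor_left q hq hq1 (G.ty (c + 1) 0).bot (z.re - 1) (by linarith only [hq1, hzre1])
              linarith only [hzim0, this]
            · have hr1' : (1 : ℝ) ≤ r := by exact_mod_cast Nat.one_le_iff_ne_zero.2 hr00
              have := locFloor_le q hq (G.ty (c + 1) 0).bot (z.re - 1)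
              rw [hwim]
              linarith only [hq1, h43, h32, h21, hdisp, hzim0, hr1', this]
          · rw [hy]
            have := locCeil_ge hq hG (c + 1) hcM2 (z.re - 1) (by linarith only [hz1']) (by linarith only [hq1, hz2, hxr])
            rw [hwim]
            linarith only [h43, hz4, hdisp, hrN, hch, hm, htt, hhi, this]

end Pool.Agent.Helper60_Pack
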